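import Mathlib
import Pool.Agent.N253.LC.Stm

/-!
# Small entry components near parameters with a Lyapunov exponent: statements

Project EC, helper253. `f d c z = z ^ d + c`. Near a parameter `c₀` with a Lyapunov exponent, every
connected set of parameters `c` in the disc of radius `R` about `c₀` whose critical orbit enters the
disc of radius `R ^ τ` about the critical point, `τ < 1 / (d - 1)`, has diameter at most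
`R ^ (1 + τ - ε)`.
-/

set_option autoImplicit false

open Set Filter Metric Topology

namespace Pool.Agent.N253.EC

open Pool.Agent.TH279.MD Pool.Agent.Y298.SH Pool.Agent.Y298.SH.CD Pool.Agent.Y298.CA
open Pool.Agent.N253.LC

/-- Shadowing of the orbit of `c₀` at the scale `σ`, with intermediate bounds. -/
def S_PASS : Prop := ∀ (d : ℕ) (χ : ℝ) (c₀ : ℂ), 2 ≤ d → Lyap d χ c₀ → ∀ ε : ℝ, 0 < ε → ε < 1 / 2 →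
  ∃ C κ r₀ : ℝ, 1 ≤ C ∧ 0 < κ ∧ κ ≤ 1 ∧ 0 < r₀ ∧ r₀ ≤ 1 / 4 ∧ ∀ σ : ℝ, 0 < σ → σ ≤ r₀ → ∃ n : ℕ,
    |n * χ - (1 - ε) * Real.log (1 / σ)| ≤ C ∧
    (∀ c x : ℂ, ‖c - c₀‖ ≤ σ → ‖x - c‖ ≤ σ → (∀ j ≤ n, ‖(f d c)^[j] x‖ ≤ 3 ∧
      κ ≤ ‖deriv ((f d c)^[j]) x‖) ∧ (∀ j < n, κ * σ ^ ε ≤ ‖(f d c)^[j] x‖) ∧
      σ ^ (2 * ε - 1) ≤ ‖deriv ((f d c)^[n]) x‖) ∧
    (∀ c c' : ℂ, ‖c - c₀‖ ≤ σ → ‖c' - c₀‖ ≤ σ →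
      σ ^ (2 * ε - 1) * ‖c - c'‖ ≤ ‖(f d c)^[n] c - (f d c')^[n] c'‖)

/-- Expansion, now for orbits which may come as near the critical point as `r ^ τ`. -/
def S_EXP2 : Prop := ∀ (d : ℕ) (χ : ℝ) (c₀ : ℂ), 2 ≤ d → Lyap d χ c₀ → ∀ τ : ℝ, 0 < τ →
  τ * ((d : ℝ) - 1) < 1 →
  ∃ κ η K r₀ : ℝ, 0 < κ ∧ κ ≤ 1 ∧ 0 < η ∧ 1 ≤ K ∧ 0 < r₀ ∧ r₀ ≤ 1 / 4 ∧
  (∀ (c : ℂ) (r : ℝ) (y : ℂ) (n : ℕ),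
    0 < r → r ≤ r₀ → ‖c - c₀‖ ≤ r → (∀ j ≤ n, ‖(f d c)^[j] y‖ ≤ 4) →
    (∀ j < n, r ^ τ ≤ ‖(f d c)^[j] y‖) →
    κ * Real.exp (η * n) ≤ ‖deriv ((f d c)^[n]) y‖ ∨
    ∃ i < n, κ * Real.exp (η * i) ≤ ‖deriv ((f d c)^[i]) y‖ ∧ ‖(f d c)^[i] y‖ ≤ 1 ∧
      (n : ℝ) - i ≤ K * (1 + Real.log (1 / ‖(f d c)^[i] y‖)) ∧
      κ * ‖(f d c)^[i] y‖ ^ (d - 1) * ‖deriv ((f d c)^[i]) y‖ ≤ ‖deriv ((f d c)^[n]) y‖ ∧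
      κ * r ^ (1 / (2 * (d : ℝ))) ≤ ‖(f d c)^[n] y‖) ∧
  ∃ δ₁ : ℝ, 0 < δ₁ ∧ δ₁ ≤ 1 / 4 ∧ ∀ (c : ℂ) (r : ℝ) (y : ℂ), 0 < r → r ≤ r₀ → ‖c - c₀‖ ≤ r →
    r ^ τ ≤ ‖y‖ → ‖y‖ ≤ 2 * δ₁ → ∃ k : ℕ, Real.exp (η * (k + 1 : ℕ)) ≤ ‖deriv ((f d c)^[k + 1]) y‖ ∧
      (∀ j ≤ k, ‖(f d c)^[j + 1] y‖ ≤ 3) ∧
      ∀ j < k, κ * r ^ (1 / (2 * (d : ℝ))) ≤ ‖(f d c)^[j + 1] y‖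

/-- Expansion at all times, and at the returns. -/
def S_EXN : Prop := ∀ (d : ℕ) (χ : ℝ) (c₀ : ℂ), 2 ≤ d → Lyap d χ c₀ → ∀ τ g : ℝ, 0 < τ →
  τ * ((d : ℝ) - 1) < 1 - g → 0 < g →
  ∃ κ η a r₀ : ℝ, 0 < κ ∧ κ ≤ 1 ∧ 0 < η ∧ 0 < a ∧ a ≤ 1 ∧ 0 < r₀ ∧ r₀ ≤ 1 / 4 ∧
  ∀ (c : ℂ) (r : ℝ) (y : ℂ) (n : ℕ),
    0 < r → r ≤ r₀ → ‖c - c₀‖ ≤ r → (∀ j ≤ n, ‖(f d c)^[j] y‖ ≤ 4) →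
    (∀ j < n, r ^ τ ≤ ‖(f d c)^[j] y‖) →
    κ * r ^ (1 - g) * Real.exp (η * n) ≤ ‖deriv ((f d c)^[n]) y‖ ∧
    (1 ≤ n → ‖(f d c)^[n] y‖ ≤ r ^ (3 / (4 * (d : ℝ))) →
      κ * Real.exp (η * n) * ‖y‖ ^ (-a) ≤ ‖deriv ((f d c)^[n]) y‖)

/-- Growth of the derivative with respect to the parameter. -/
def S_DVG : Prop := ∀ (d n : ℕ) (c : ℂ) (κ η : ℝ), 2 ≤ d → 0 < κ → 0 < η →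
  (∀ l : ℕ, κ * Real.exp (η * l) ≤ ‖deriv ((f d c)^[l]) ((f d c)^[n] c)‖) →
  2 / (κ * (Real.exp η - 1)) ≤ ‖deriv (fun t : ℂ => (f d t)^[n] t) c‖ →
  Tendsto (fun i : ℕ => ‖deriv (fun t : ℂ => (f d t)^[n + i] t) c‖) atTop atTop

/-- The parameters of a curve whose critical orbits enter the small disc at the same time. -/
def S_ENT : Prop := ∀ (d : ℕ) (χ : ℝ) (c₀ : ℂ), 2 ≤ d → Lyap d χ c₀ → ∀ τ ε : ℝ,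
  3 / (4 * (d : ℝ)) ≤ τ → τ * ((d : ℝ) - 1) < 1 → 0 < ε →
  ∃ R₀ : ℝ, 0 < R₀ ∧ R₀ ≤ 1 / 4 ∧ ∀ R : ℝ, 0 < R → R ≤ R₀ → ∃ n : ℕ,
    (∀ c : ℂ, ‖c - c₀‖ ≤ R → ∀ i < n, R ^ τ ≤ ‖(f d c)^[i] c‖) ∧
    (∀ c : ℂ, ‖c - c₀‖ ≤ R → (∀ i, R ^ τ ≤ ‖(f d c)^[n + i] c‖) →
      (∀ i, ‖(f d c)^[i] c‖ ≤ 4) → Tendsto (fun i : ℕ =>
        ‖deriv (fun t : ℂ => (f d t)^[n + i] t) c‖) atTop atTop) ∧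
    ∀ (γ : ℝ → ℂ) (a b t₀ : ℝ) (j : ℕ), t₀ ∈ Icc a b → ContinuousOn γ (Icc a b) →
    (∀ t ∈ Icc a b, ‖γ t - c₀‖ ≤ R) →
    (∀ i < j, R ^ τ ≤ ‖(f d (γ t₀))^[n + i] (γ t₀)‖) → ‖(f d (γ t₀))^[n + j] (γ t₀)‖ < R ^ τ →
    (∀ t ∈ Icc a b, ‖(f d (γ t))^[n + j] (γ t)‖ ≤ 2 * R ^ τ) →
    (∀ t ∈ Icc a b, ‖γ t - γ t₀‖ ≤ R ^ (1 + τ - ε)) ∧
    ∀ i < j, ‖(f d (γ t₀))^[n + i] (γ t₀)‖ ≤ 2 * R ^ τ → ∀ t ∈ Icc a b,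
      ‖(f d (γ t))^[n + i] (γ t) - (f d (γ t₀))^[n + i] (γ t₀)‖ ≤ R ^ τ / 4

/-- The chain argument (pure topology of curves). `z i t` are the points of the orbits. -/
def S_CHN : Prop := ∀ (s ρ : ℝ) (γ : ℝ → ℂ) (z : ℕ → ℝ → ℂ), 0 < s → 0 ≤ ρ →
  (∀ i, ContinuousOn (z i) (Icc 0 1)) →
  (∀ (a b t₀ : ℝ) (j : ℕ), 0 ≤ a → b ≤ 1 → t₀ ∈ Icc a b → (∀ i < j, s ≤ ‖z i t₀‖) → ‖z j t₀‖ < s →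
    (∀ t ∈ Icc a b, ‖z j t‖ ≤ 2 * s) → (∀ t ∈ Icc a b, ‖γ t - γ t₀‖ ≤ ρ) ∧
    ∀ i < j, ‖z i t₀‖ ≤ 2 * s → ∀ t ∈ Icc a b, ‖z i t - z i t₀‖ ≤ s / 4) →
  (∀ t ∈ Icc (0 : ℝ) 1, ∃ j, ‖z j t‖ < s) →
  ∀ t ∈ Icc (0 : ℝ) 1, ∀ t' ∈ Icc (0 : ℝ) 1, ‖γ t - γ t'‖ ≤ 2 * ρ

/-- **Small entry components.** -/
def S_COMP : Prop := ∀ (d : ℕ) (χ : ℝ) (c₀ : ℂ), 2 ≤ d → Lyap d χ c₀ → ∀ τ ε : ℝ,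
  3 / (4 * (d : ℝ)) ≤ τ → τ * ((d : ℝ) - 1) < 1 → 0 < ε →
  ∃ R₀ : ℝ, 0 < R₀ ∧ ∀ R : ℝ, 0 < R → R ≤ R₀ →
    (∀ Γ : Set ℂ, IsPreconnected Γ →
      (∀ c ∈ Γ, ‖c - c₀‖ < R ∧ ∃ k : ℕ, 1 ≤ k ∧ ‖(f d c)^[k] 0‖ < R ^ τ) →
      ∀ c ∈ Γ, ∀ c' ∈ Γ, ‖c - c'‖ ≤ R ^ (1 + τ - ε)) ∧
    ∀ c ∈ interior (N62a1eb23.multibrotSet d), ‖c - c₀‖ < R →
      ∃ k : ℕ, 1 ≤ k ∧ ‖(f d c)^[k] 0‖ < R ^ τ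

end Pool.Agent.N253.EC
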