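import Mathlib
import Pool.Agent.N253.EC.Stm

/-!
# The chain argument (pure topology of curves)

Part CHN of project EC (helper253); proof by helper491.
-/

set_option autoImplicit false

open Set Filter Metric Topology

namespace Pool.Agent.N253.EC

/-- A continuous function which is less than `s` at `p` and more than `2 s` at `q` runs from `s` to
`2 s` on a subinterval on which it stays between `s` and `2 s`. -/
theorem crossing {g : ℝ → ℝ} {p q s : ℝ} (hs : 0 < s) (hpq : p ≤ q)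
    (hg : ContinuousOn g (Icc p q)) (hp : g p < s) (hq : 2 * s < g q) :
    ∃ a b : ℝ, p ≤ a ∧ a ≤ b ∧ b ≤ q ∧ g a = s ∧ g b = 2 * s ∧
      ∀ t ∈ Icc a b, s ≤ g t ∧ g t ≤ 2 * s := by
  have hc2 : IsCompact (Icc p q ∩ g ⁻¹' {2 * s}) :=
    isCompact_Icc.of_isClosed_subset (hg.preimage_isClosed_of_isClosed isClosed_Icc isClosed_singleton)
      inter_subset_left
  have hne2 : (Icc p q ∩ g ⁻¹' {2 * s}).Nonempty := by
    obtain ⟨t, ht, h⟩ := intermediate_value_Icc hpq hg (⟨by linarith, hq.le⟩ : 2 * s ∈ Icc (g p) (g q))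
    exact ⟨t, ht, h⟩
  obtain ⟨b, hb⟩ := hc2.exists_isLeast hne2
  have hbI : b ∈ Icc p q := hb.1.1
  have hgb : g b = 2 * s := hb.1.2
  have hle : ∀ t ∈ Icc p b, g t ≤ 2 * s := by
    intro t ht
    by_contra hlt
    push Not at hlt
    obtain ⟨u, hu, h⟩ := intermediate_value_Icc ht.1
      (hg.mono (Icc_subset_Icc le_rfl (ht.2.trans hbI.2)))
      (⟨by linarith, hlt.le⟩ : 2 * s ∈ Icc (g p) (g t))
    have h1 : b ≤ u := hb.2 ⟨⟨hu.1, hu.2.trans (ht.2.trans hbI.2)⟩, h⟩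
    have h2 : t = b := le_antisymm ht.2 (h1.trans hu.2)
    rw [h2, hgb] at hlt
    exact lt_irrefl _ hlt
  have hgpb : ContinuousOn g (Icc p b) := hg.mono (Icc_subset_Icc le_rfl hbI.2)
  have hc1 : IsCompact (Icc p b ∩ g ⁻¹' {s}) :=
    isCompact_Icc.of_isClosed_subset (hgpb.preimage_isClosed_of_isClosed isClosed_Icc
      isClosed_singleton) inter_subset_left
  have hne1 : (Icc p b ∩ g ⁻¹' {s}).Nonempty := by
    obtain ⟨t, ht, h⟩ := intermediate_value_Icc hbI.1 hgpb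
      (⟨hp.le, by rw [hgb]; linarith⟩ : s ∈ Icc (g p) (g b))
    exact ⟨t, ht, h⟩
  obtain ⟨a, ha⟩ := hc1.exists_isGreatest hne1
  have haI : a ∈ Icc p b := ha.1.1
  have hga : g a = s := ha.1.2
  refine ⟨a, b, haI.1, haI.2, hbI.2, hga, hgb, fun t ht => ⟨?_, hle t ⟨haI.1.trans ht.1, ht.2⟩⟩⟩
  by_contra hlt
  push Not at hlt
  obtain ⟨u, hu, h⟩ := intermediate_value_Icc ht.2
    (hgpb.mono (Icc_subset_Icc (haI.1.trans ht.1) le_rfl))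
    (⟨hlt.le, by rw [hgb]; linarith⟩ : s ∈ Icc (g t) (g b))
  have h1 : u ≤ a := ha.2 ⟨⟨haI.1.trans (ht.1.trans hu.1), hu.2⟩, h⟩
  have h2 : t = a := le_antisymm (hu.1.trans h1) ht.1
  rw [h2, hga] at hlt
  exact lt_irrefl _ hlt

/-- The same with the endpoints in either order. -/
theorem crossing' {g : ℝ → ℝ} {a b s t₀ t₁ : ℝ} (hs : 0 < s) (h0 : t₀ ∈ Icc a b)
    (h1 : t₁ ∈ Icc a b) (hg : ContinuousOn g (Icc a b)) (hp : g t₀ < s) (hq : 2 * s < g t₁) :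
    ∃ a' b' : ℝ, a ≤ a' ∧ a' ≤ b' ∧ b' ≤ b ∧ |g b' - g a'| = s ∧
      ∀ t ∈ Icc a' b', s ≤ g t ∧ g t ≤ 2 * s := by
  rcases le_total t₀ t₁ with h | h
  · obtain ⟨a', b', h2, h3, h4, h5, h6, h7⟩ :=
      crossing hs h (hg.mono (Icc_subset_Icc h0.1 h1.2)) hp hq
    refine ⟨a', b', h0.1.trans h2, h3, h4.trans h1.2, ?_, h7⟩
    rw [h5, h6, show 2 * s - s = s by ring, abs_of_pos hs]
  · have hgc : ContinuousOn (fun t => g (-t)) (Icc (-t₀) (-t₁)) := by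
      refine hg.comp continuous_neg.continuousOn ?_
      intro t ht
      exact ⟨by linarith [ht.2, h1.1], by linarith [ht.1, h0.2]⟩
    obtain ⟨a', b', h2, h3, h4, h5, h6, h7⟩ :=
      crossing (g := fun t => g (-t)) hs (neg_le_neg h) hgc
        (by simpa using hp) (by simpa using hq)
    refine ⟨-b', -a', by linarith [h1.1], neg_le_neg h3, by linarith [h0.2], ?_, ?_⟩
    · rw [h5, h6, show s - 2 * s = -s by ring, abs_neg, abs_of_pos hs]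
    · intro t ht
      have := h7 (-t) ⟨by linarith [ht.2], by linarith [ht.1]⟩
      simpa using this

theorem chain_aux {s ρ : ℝ} {γ : ℝ → ℂ} {z : ℕ → ℝ → ℂ} (hs : 0 < s)
    (hz : ∀ i, ContinuousOn (z i) (Icc 0 1))
    (H : ∀ (a b t₀ : ℝ) (j : ℕ), 0 ≤ a → b ≤ 1 → t₀ ∈ Icc a b → (∀ i < j, s ≤ ‖z i t₀‖) →
      ‖z j t₀‖ < s → (∀ t ∈ Icc a b, ‖z j t‖ ≤ 2 * s) → (∀ t ∈ Icc a b, ‖γ t - γ t₀‖ ≤ ρ) ∧
      ∀ i < j, ‖z i t₀‖ ≤ 2 * s → ∀ t ∈ Icc a b, ‖z i t - z i t₀‖ ≤ s / 4)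
    {J : ℕ} (hJ : ∀ t ∈ Icc (0 : ℝ) 1, ∃ j ≤ J, ‖z j t‖ < s) (k : ℕ) :
    ∀ m : ℕ, J + 1 ≤ m + k → ∀ a b : ℝ, 0 ≤ a → a ≤ b → b ≤ 1 →
      (∀ i < m, ∀ t ∈ Icc a b, s ≤ ‖z i t‖) →
      ∃ t₀ ∈ Icc a b, ∃ j ≥ m, (∀ i < j, s ≤ ‖z i t₀‖) ∧ ‖z j t₀‖ < s ∧
        ∀ t ∈ Icc a b, ‖z j t‖ ≤ 2 * s := by
  induction k with
  | zero =>
    intro m hm a b ha hab hb hi
    obtain ⟨j, hj, h⟩ := hJ a ⟨ha, hab.trans hb⟩
    exact absurd (hi j (by omega) a ⟨le_rfl, hab⟩) (not_le.mpr h)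
  | succ k ih =>
    intro m hm a b ha hab hb hi
    have ihm := ih (m + 1) (by omega)
    by_cases hA : ∀ t ∈ Icc a b, s ≤ ‖z m t‖
    · obtain ⟨t₀, ht₀, j, hj, h⟩ := ihm a b ha hab hb (by
        intro i him t ht
        rcases Nat.lt_succ_iff_lt_or_eq.mp him with h | h
        · exact hi i h t ht
        · rw [h]; exact hA t ht)
      exact ⟨t₀, ht₀, j, by omega, h⟩
    · push Not at hA
      obtain ⟨t₀, ht₀, hlt⟩ := hA
      refine ⟨t₀, ht₀, m, le_rfl, fun i him => hi i him t₀ ht₀, hlt, ?_⟩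
      by_contra hcon
      push Not at hcon
      obtain ⟨t₁, ht₁, hgt⟩ := hcon
      obtain ⟨a', b', h2, h3, h4, h5, h6⟩ := crossing' (g := fun t => ‖z m t‖) hs ht₀ ht₁
        (((hz m).mono (Icc_subset_Icc ha hb)).norm) hlt hgt
      have hsub : Icc a' b' ⊆ Icc a b := Icc_subset_Icc h2 h4
      obtain ⟨ts, hts, j, hj, hj1, hj2, hj3⟩ := ihm a' b' (ha.trans h2) h3 (h4.trans hb) (by
        intro i him t ht
        rcases Nat.lt_succ_iff_lt_or_eq.mp him with h | h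
        · exact hi i h t (hsub ht)
        · rw [h]; exact (h6 t ht).1)
      have h7 := (H a' b' ts j (ha.trans h2) (h4.trans hb) hts hj1 hj2 hj3).2 m (by omega)
        (h6 ts hts).2
      have h8 := h7 a' ⟨le_rfl, h3⟩
      have h9 := h7 b' ⟨h3, le_rfl⟩
      have h10 : |‖z m b'‖ - ‖z m a'‖| ≤ s / 4 + s / 4 := by
        calc |‖z m b'‖ - ‖z m a'‖| ≤ ‖z m b' - z m a'‖ := abs_norm_sub_norm_le _ _
          _ = ‖(z m b' - z m ts) - (z m a' - z m ts)‖ := by congr 1; ring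
          _ ≤ ‖z m b' - z m ts‖ + ‖z m a' - z m ts‖ := norm_sub_le _ _
          _ ≤ s / 4 + s / 4 := add_le_add h9 h8
      have h11 : |‖z m b'‖ - ‖z m a'‖| = s := h5
      rw [h11] at h10
      linarith

theorem t_CHN' (s ρ : ℝ) (γ : ℝ → ℂ) (z : ℕ → ℝ → ℂ) (hs : 0 < s) (_hρ : 0 ≤ ρ)
    (hz : ∀ i, ContinuousOn (z i) (Icc 0 1))
    (H : ∀ (a b t₀ : ℝ) (j : ℕ), 0 ≤ a → b ≤ 1 → t₀ ∈ Icc a b → (∀ i < j, s ≤ ‖z i t₀‖) →
      ‖z j t₀‖ < s → (∀ t ∈ Icc a b, ‖z j t‖ ≤ 2 * s) → (∀ t ∈ Icc a b, ‖γ t - γ t₀‖ ≤ ρ) ∧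
      ∀ i < j, ‖z i t₀‖ ≤ 2 * s → ∀ t ∈ Icc a b, ‖z i t - z i t₀‖ ≤ s / 4)
    (hex : ∀ t ∈ Icc (0 : ℝ) 1, ∃ j, ‖z j t‖ < s) :
    ∀ t ∈ Icc (0 : ℝ) 1, ∀ t' ∈ Icc (0 : ℝ) 1, ‖γ t - γ t'‖ ≤ 2 * ρ := by
  have hJ : ∃ J : ℕ, ∀ t ∈ Icc (0 : ℝ) 1, ∃ j ≤ J, ‖z j t‖ < s := by
    have hopen : ∀ j : ℕ, IsOpen {t : Icc (0 : ℝ) 1 | ‖z j t‖ < s} := by
      intro j
      exact isOpen_lt ((continuousOn_iff_continuous_domRestrict.mp (hz j)).norm) continuous_const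
    obtain ⟨T, hT⟩ := isCompact_univ.elim_finite_subcover
      (fun j : ℕ => {t : Icc (0 : ℝ) 1 | ‖z j t‖ < s}) hopen (by
        intro t _
        obtain ⟨j, hj⟩ := hex t t.2
        exact mem_iUnion.mpr ⟨j, hj⟩)
    refine ⟨T.sup id, fun t ht => ?_⟩
    have h := hT (mem_univ (⟨t, ht⟩ : Icc (0 : ℝ) 1))
    simp only [mem_iUnion, mem_ofPred_eq] at h
    obtain ⟨j, hjT, hj⟩ := h
    exact ⟨j, Finset.le_sup (f := id) hjT, hj⟩
  obtain ⟨J, hJ⟩ := hJ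
  obtain ⟨t₀, ht₀, j, _, h1, h2, h3⟩ := chain_aux hs hz H hJ (J + 1) 0 (by omega) 0 1 le_rfl
    zero_le_one le_rfl (by intro i hi; omega)
  have h4 := (H 0 1 t₀ j le_rfl le_rfl ht₀ h1 h2 h3).1
  intro t ht t' ht'
  calc ‖γ t - γ t'‖ = ‖(γ t - γ t₀) - (γ t' - γ t₀)‖ := by congr 1; ring
    _ ≤ ‖γ t - γ t₀‖ + ‖γ t' - γ t₀‖ := norm_sub_le _ _
    _ ≤ ρ + ρ := add_le_add (h4 t ht) (h4 t' ht')
    _ = 2 * ρ := by ring

/-- **The chain argument.** -/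
theorem t_CHN : S_CHN := by
  intro s ρ γ z hs hρ hz H hex
  exact t_CHN' s ρ γ z hs hρ hz H hex

end Pool.Agent.N253.EC
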