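import Mathlib
import Pool.Agent.N253.EC.Stm

/-!
# Small entry components: assembly with connected sets and interior points (helper424)
-/

set_option autoImplicit false

open Set Filter Metric Topology

namespace Pool.Agent.N253.EC

open Pool.Agent.TH279.MD Pool.Agent.Y298.SH Pool.Agent.Y298.SH.CD Pool.Agent.Y298.CA
open Pool.Agent.N253.LC

namespace COMPaux

theorem diff_it (d m : ℕ) : Differentiable ℂ (fun t : ℂ => (f d t)^[m] t) := by
  induction m with
  | zero => exact differentiable_id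
  | succ m ih =>
    have h : (fun t : ℂ => (f d t)^[m + 1] t) = fun t : ℂ => ((f d t)^[m] t) ^ d + t := by
      funext t
      rw [Function.iterate_succ_apply']
      rfl
    rw [h]
    exact (ih.pow d).add differentiable_id

theorem shift {d : ℕ} (hd : 2 ≤ d) (c : ℂ) (j : ℕ) : (f d c)^[j + 1] 0 = (f d c)^[j] c := by
  rw [Function.iterate_succ_apply]
  congr 1
  unfold f
  rw [zero_pow (by omega), zero_add]

theorem bd {d : ℕ} (hd : 2 ≤ d) {c : ℂ} (hc : c ∈ N62a1eb23.multibrotSet d) (j : ℕ) :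
    ‖(f d c)^[j] c‖ ≤ 2 := by
  have h1 := (Pool.Agent.H712R2.mem_multibrot_iff hd c).mp hc (j + 1)
  have h2 : Pool.Agent.H712R2.P d (j + 1) c = (f d c)^[j] c := by
    rw [P_eq, shift hd]
  rwa [h2] at h1

end COMPaux

theorem t_COMP (h1 : S_ENT) (h2 : S_CHN) : S_COMP := by
  intro d χ c₀ hd hL τ ε hτ1 hτ2 hε
  obtain ⟨R₁, hR₁, hR₁4, HR⟩ := h1 d χ c₀ hd hL τ (ε / 2) hτ1 hτ2 (half_pos hε)
  have hR₂ : (0 : ℝ) < (1 / 2 : ℝ) ^ (2 / ε) := Real.rpow_pos_of_pos (by norm_num) _
  refine ⟨min R₁ ((1 / 2 : ℝ) ^ (2 / ε)), lt_min hR₁ hR₂, fun R hR hRle => ?_⟩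
  obtain ⟨n, hn1, hn2, hn3⟩ := HR R hR (hRle.trans (min_le_left _ _))
  have hRτ : 0 < R ^ τ := Real.rpow_pos_of_pos hR _
  have h2R : 2 * R ^ (1 + τ - ε / 2) ≤ R ^ (1 + τ - ε) := by
    have e1 : R ^ (1 + τ - ε / 2) = R ^ (1 + τ - ε) * R ^ (ε / 2) := by
      rw [← Real.rpow_add hR]
      congr 1
      ring
    have e2 : R ^ (ε / 2) ≤ 1 / 2 := by
      have e3 : R ^ (ε / 2) ≤ ((1 / 2 : ℝ) ^ (2 / ε)) ^ (ε / 2) :=
        Real.rpow_le_rpow hR.le (hRle.trans (min_le_right _ _)) (by positivity)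
      have e4 : ((1 / 2 : ℝ) ^ (2 / ε)) ^ (ε / 2) = 1 / 2 := by
        rw [← Real.rpow_mul (by norm_num)]
        have : 2 / ε * (ε / 2) = 1 := by field_simp
        rw [this, Real.rpow_one]
      rwa [e4] at e3
    have e5 : 0 < R ^ (1 + τ - ε) := Real.rpow_pos_of_pos hR _
    rw [e1]
    nlinarith
  refine ⟨?_, ?_⟩
  · intro Γ hΓ hmem c hc c' hc'
    obtain ⟨W, hW⟩ : ∃ W : Set ℂ, W = {t : ℂ | ‖t - c₀‖ < R ∧ ∃ k : ℕ, ‖(f d t)^[k] t‖ < R ^ τ} :=
      ⟨_, rfl⟩
    have hWo : IsOpen W := by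
      have e : W = {t : ℂ | ‖t - c₀‖ < R} ∩ ⋃ k : ℕ, {t : ℂ | ‖(f d t)^[k] t‖ < R ^ τ} := by
        rw [hW]
        ext t
        simp
      rw [e]
      refine IsOpen.inter ?_ (isOpen_iUnion fun k => ?_)
      · exact isOpen_lt (continuous_id.sub continuous_const).norm continuous_const
      · exact isOpen_lt (COMPaux.diff_it d k).continuous.norm continuous_const
    have hΓW : Γ ⊆ W := by
      intro t ht
      obtain ⟨a1, k, hk, a2⟩ := hmem t ht
      obtain ⟨j, rfl⟩ : ∃ j, k = j + 1 := ⟨k - 1, by omega⟩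
      rw [COMPaux.shift hd] at a2
      rw [hW]
      exact ⟨a1, j, a2⟩
    have hcc : c' ∈ connectedComponentIn W c := hΓ.subset_connectedComponentIn hc hΓW hc'
    have hpc : IsPathConnected (connectedComponentIn W c) := by
      rw [← (hWo.connectedComponentIn).isConnected_iff_isPathConnected]
      exact isConnected_connectedComponentIn_iff.2 (hΓW hc)
    obtain ⟨p, hp⟩ := hpc.joinedIn c (mem_connectedComponentIn (hΓW hc)) c' hcc
    have hpW : ∀ t ∈ Icc (0 : ℝ) 1, p.extend t ∈ W := by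
      intro t ht
      rw [Path.extend_apply p ht]
      exact connectedComponentIn_subset W c (hp _)
    have hcont : Continuous p.extend := p.continuous_extend
    have key := h2 (R ^ τ) (R ^ (1 + τ - ε / 2)) p.extend
      (fun i t => (f d (p.extend t))^[n + i] (p.extend t)) hRτ (Real.rpow_pos_of_pos hR _).le
      (fun i => ((COMPaux.diff_it d (n + i)).continuous.comp hcont).continuousOn) ?_ ?_
      0 (left_mem_Icc.2 zero_le_one) 1 (right_mem_Icc.2 zero_le_one)
    · rw [Path.extend_zero, Path.extend_one] at key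
      exact key.trans h2R
    · intro a b t₀ j ha hb ht₀ k1 k2 k3
      refine hn3 p.extend a b t₀ j ht₀ hcont.continuousOn ?_ k1 k2 k3
      intro t ht
      have := hpW t ⟨ha.trans ht.1, ht.2.trans hb⟩
      rw [hW] at this
      exact this.1.le
    · intro t ht
      have h3 := hpW t ht
      rw [hW] at h3
      obtain ⟨h4, k, hk⟩ := h3
      have h5 : n ≤ k := by
        by_contra hcon
        push Not at hcon
        exact absurd hk (not_lt.2 (hn1 _ h4.le k hcon))
      refine ⟨k - n, ?_⟩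
      show ‖(f d (p.extend t))^[n + (k - n)] (p.extend t)‖ < R ^ τ
      rw [Nat.add_sub_cancel' h5]
      exact hk
  · intro c hc hcR
    by_contra hcon
    push Not at hcon
    have h3 : ∀ i, R ^ τ ≤ ‖(f d c)^[i] c‖ := by
      intro i
      have := hcon (i + 1) (by omega)
      rwa [COMPaux.shift hd] at this
    have hcM := interior_subset hc
    have h4 := hn2 c hcR.le (fun i => h3 (n + i)) (fun i => (COMPaux.bd hd hcM i).trans (by norm_num))
    obtain ⟨ρ, hρ, hρM⟩ := Metric.isOpen_iff.1 isOpen_interior c hc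
    have h5 : ∀ i, ‖deriv (fun t : ℂ => (f d t)^[n + i] t) c‖ ≤ 2 / (ρ / 2) := by
      intro i
      apply Complex.norm_deriv_le_of_forall_mem_sphere_norm_le (half_pos hρ)
      · exact (COMPaux.diff_it d (n + i)).diffContOnCl
      · intro t ht
        apply COMPaux.bd hd
        apply interior_subset
        apply hρM
        rw [mem_ball, mem_sphere.1 ht]
        linarith
    obtain ⟨i, hi⟩ := (h4.eventually (eventually_gt_atTop (2 / (ρ / 2)))).exists
    exact absurd (h5 i) (not_le.2 hi)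

end Pool.Agent.N253.EC
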