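import Pool.Agent.N253.EC.Stm

/-!
# Growth of the derivative of the critical orbit with respect to the parameter

Project EC (helper253), part DVG (helper849).
-/

set_option autoImplicit false

open Set Filter Metric Topology

namespace Pool.Agent.N253.EC

open Pool.Agent.TH279.MD Pool.Agent.Y298.SH Pool.Agent.Y298.SH.CD Pool.Agent.Y298.CA
open Pool.Agent.N253.LC

namespace DVGaux

lemma diff_xi (d : ℕ) (m : ℕ) : Differentiable ℂ fun t : ℂ => (f d t)^[m] t := by
  induction m with
  | zero => exact differentiable_id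
  | succ m ih =>
    have h1 : (fun t : ℂ => (f d t)^[m + 1] t) = fun t : ℂ => ((f d t)^[m] t) ^ d + t := by
      funext t
      rw [Function.iterate_succ_apply']
      rfl
    rw [h1]
    exact (ih.pow d).add differentiable_id

lemma xi_succ (d m : ℕ) (c : ℂ) : deriv (fun t : ℂ => (f d t)^[m + 1] t) c =
    (d : ℂ) * ((f d c)^[m] c) ^ (d - 1) * deriv (fun t : ℂ => (f d t)^[m] t) c + 1 := by
  have h1 : (fun t : ℂ => (f d t)^[m + 1] t) = fun t : ℂ => ((f d t)^[m] t) ^ d + t := by
    funext t
    rw [Function.iterate_succ_apply']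
    rfl
  rw [h1]
  have h2 := (((diff_xi d m c).hasDerivAt).pow d).add (hasDerivAt_id c)
  exact h2.deriv

lemma diff_it (d : ℕ) (c : ℂ) (m : ℕ) : Differentiable ℂ ((f d c)^[m]) := by
  induction m with
  | zero => exact differentiable_id
  | succ m ih =>
    have h1 : (f d c)^[m + 1] = fun z : ℂ => ((f d c)^[m] z) ^ d + c := by
      funext t
      rw [Function.iterate_succ_apply']
      rfl
    rw [h1]
    exact (ih.pow d).add_const c

lemma it_succ (d m : ℕ) (c w : ℂ) : deriv ((f d c)^[m + 1]) w =
    (d : ℂ) * ((f d c)^[m] w) ^ (d - 1) * deriv ((f d c)^[m]) w := by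
  have h1 : (f d c)^[m + 1] = fun z : ℂ => ((f d c)^[m] z) ^ d + c := by
    funext t
    rw [Function.iterate_succ_apply']
    rfl
  rw [h1]
  have h2 := (((diff_it d c m w).hasDerivAt).pow d).add_const c
  exact h2.deriv

end DVGaux

open DVGaux in
/-- Growth of the derivative with respect to the parameter. -/
theorem t_DVG : S_DVG := by
  intro d n c κ η hd hκ hη ha hx0
  set w : ℂ := (f d c)^[n] c with hw
  have ha0 : ∀ l, deriv ((f d c)^[l]) w ≠ 0 := by
    intro l h
    have h1 := ha l
    rw [h, norm_zero] at h1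
    have : 0 < κ * Real.exp (η * l) := by positivity
    linarith
  have hE : 0 < Real.exp η - 1 := by
    have := Real.add_one_lt_exp hη.ne'
    linarith
  obtain ⟨S, hS⟩ : ∃ S : ℕ → ℂ, S = fun i => ∑ l ∈ Finset.range i, 1 / deriv ((f d c)^[l + 1]) w := ⟨_, rfl⟩
  have hS1 : ∀ i, S (i + 1) = S i + 1 / deriv ((f d c)^[i + 1]) w := by
    intro i
    rw [hS]
    exact Finset.sum_range_succ _ _
  have hSb : ∀ i : ℕ, ‖S i‖ ≤ (1 - Real.exp (-(η * i))) / (κ * (Real.exp η - 1)) := by
    intro i
    induction i with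
    | zero =>
      rw [hS]
      simp
    | succ i ih =>
      rw [hS1]
      have h1 := ha (i + 1)
      have h2 : ‖1 / deriv ((f d c)^[i + 1]) w‖ ≤ Real.exp (-(η * (i + 1 : ℕ))) / κ := by
        rw [norm_div, norm_one, Real.exp_neg, div_le_div_iff₀ (norm_pos_iff.mpr (ha0 _)) hκ, one_mul]
        have h3 : 0 < Real.exp (η * (i + 1 : ℕ)) := Real.exp_pos _
        rw [inv_mul_eq_div, le_div_iff₀ h3]
        exact h1
      refine (norm_add_le _ _).trans ((add_le_add ih h2).trans (le_of_eq ?_))
      have h4 : Real.exp (-(η * i)) = Real.exp (-(η * (i + 1 : ℕ))) * Real.exp η := by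
        rw [← Real.exp_add]
        congr 1
        push_cast
        ring
      rw [h4]
      field_simp
      ring
  have hform : ∀ i : ℕ, deriv (fun t : ℂ => (f d t)^[n + i] t) c =
      deriv ((f d c)^[i]) w * (deriv (fun t : ℂ => (f d t)^[n] t) c + S i) := by
    intro i
    induction i with
    | zero =>
      rw [hS]
      simp
    | succ i ih =>
      have h1 : n + (i + 1) = (n + i) + 1 := by ring
      have h2 : (f d c)^[n + i] c = (f d c)^[i] w := by
        rw [hw, add_comm, Function.iterate_add_apply]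
      rw [h1, xi_succ, ih, hS1, it_succ, h2]
      have h3 := ha0 (i + 1)
      rw [it_succ] at h3
      have h4 : (d : ℂ) * ((f d c)^[i] w) ^ (d - 1) * deriv ((f d c)^[i]) w *
          (1 / ((d : ℂ) * ((f d c)^[i] w) ^ (d - 1) * deriv ((f d c)^[i]) w)) = 1 := by
        rw [mul_one_div, div_self h3]
      linear_combination -h4
  set s : ℝ := 1 / (κ * (Real.exp η - 1)) with hs
  have hspos : 0 < s := by positivity
  have hlow : ∀ i : ℕ, κ * Real.exp (η * i) * s ≤ ‖deriv (fun t : ℂ => (f d t)^[n + i] t) c‖ := by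
    intro i
    rw [hform i, norm_mul]
    refine mul_le_mul (ha i) ?_ hspos.le (norm_nonneg _)
    have h1 : ‖S i‖ ≤ s := by
      refine (hSb i).trans ?_
      rw [hs]
      refine div_le_div_of_nonneg_right ?_ (by positivity)
      linarith [Real.exp_pos (-(η * i))]
    have h2 : 2 * s ≤ ‖deriv (fun t : ℂ => (f d t)^[n] t) c‖ := by
      have : 2 * s = 2 / (κ * (Real.exp η - 1)) := by
        rw [hs]
        ring
      rw [this]
      exact hx0
    have h3 := norm_sub_le (deriv (fun t : ℂ => (f d t)^[n] t) c + S i) (S i)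
    rw [add_sub_cancel_right] at h3
    linarith
  refine tendsto_atTop_mono hlow ?_
  have h1 : Tendsto (fun i : ℕ => η * (i : ℝ)) atTop atTop :=
    tendsto_natCast_atTop_atTop.const_mul_atTop hη
  have h2 := (Real.tendsto_exp_atTop.comp h1).const_mul_atTop hκ
  exact h2.atTop_mul_const hspos

end Pool.Agent.N253.EC
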