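import Mathlib
import Pool.Agent.N253.EC.Stm

set_option autoImplicit false

open Set Filter Metric Topology

namespace Pool.Agent.N253.EC

open Pool.Agent.TH279.MD Pool.Agent.Y298.CA Pool.Agent.N253.LC

namespace ENTaux

theorem small_rpow (p B : ℝ) (hp : 0 < p) (hB : 0 < B) : ∃ r : ℝ, 0 < r ∧ ∀ R : ℝ, 0 < R → R ≤ r → R ^ p ≤ B := by
  refine ⟨B ^ (1 / p), Real.rpow_pos_of_pos hB _, fun R hR hRr => ?_⟩
  calc R ^ p ≤ (B ^ (1 / p)) ^ p := Real.rpow_le_rpow hR.le hRr hp.le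
    _ = B := by
      rw [← Real.rpow_mul hB.le, one_div_mul_cancel hp.ne', Real.rpow_one]

theorem diff_f (d : ℕ) (c : ℂ) : Differentiable ℂ (f d c) := by
  unfold f
  fun_prop

theorem diff_it (d : ℕ) (c : ℂ) (n : ℕ) : Differentiable ℂ ((f d c)^[n]) := by
  induction n with
  | zero => exact differentiable_id
  | succ n ih =>
    rw [Function.iterate_succ]
    exact ih.comp (diff_f d c)

theorem chain (d : ℕ) (c y : ℂ) (a b : ℕ) :
    deriv ((f d c)^[a + b]) y = deriv ((f d c)^[a]) ((f d c)^[b] y) * deriv ((f d c)^[b]) y := by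
  rw [Function.iterate_add]
  exact deriv_comp y (diff_it d c a _) (diff_it d c b _)

theorem deriv_f (d : ℕ) (c y : ℂ) : deriv (f d c) y = d * y ^ (d - 1) := by
  unfold f
  simp

theorem diff_xi (d : ℕ) (n : ℕ) : Differentiable ℂ (fun t : ℂ => (f d t)^[n] t) := by
  induction n with
  | zero => exact differentiable_id
  | succ n ih =>
    have : (fun t : ℂ => (f d t)^[n + 1] t) = fun t => ((f d t)^[n] t) ^ d + t := by
      funext t
      rw [Function.iterate_succ_apply']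
      rfl
    rw [this]
    exact (ih.pow d).add differentiable_id

/-- lower bound of the derivative from the two point inequality -/
theorem deriv_lower (ξ : ℂ → ℂ) (hξ : Differentiable ℂ ξ) (c₀ c : ℂ) (R L : ℝ) (hR : 0 < R)
    (hc : ‖c - c₀‖ ≤ R) (h : ∀ c' : ℂ, ‖c' - c₀‖ ≤ R → L * ‖c - c'‖ ≤ ‖ξ c - ξ c'‖) :
    L ≤ ‖deriv ξ c‖ := by
  by_contra hcon
  push Not at hcon
  obtain ⟨v, hv, hv2⟩ : ∃ v : ℂ, v ≠ 0 ∧ ∀ u : ℝ, 0 ≤ u → u ≤ 1 → ‖c + u * v - c₀‖ ≤ R := by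
    by_cases hcc : c = c₀
    · refine ⟨R, by exact_mod_cast hR.ne', fun u hu0 hu1 => ?_⟩
      rw [hcc]
      have : c₀ + u * (R : ℂ) - c₀ = ((u * R : ℝ) : ℂ) := by push_cast; ring
      rw [this, Complex.norm_real, Real.norm_eq_abs, abs_of_nonneg (by positivity)]
      nlinarith
    · refine ⟨c₀ - c, sub_ne_zero.2 (Ne.symm hcc), fun u hu0 hu1 => ?_⟩
      have : c + u * (c₀ - c) - c₀ = ((1 - u : ℝ) : ℂ) * (c - c₀) := by push_cast; ring
      rw [this, norm_mul, Complex.norm_real, Real.norm_eq_abs, abs_of_nonneg (by linarith)]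
      have := norm_nonneg (c - c₀)
      nlinarith
  have hv0 : 0 < ‖v‖ := norm_pos_iff.2 hv
  set δ := (L - ‖deriv ξ c‖) / 2 with hδ
  have hδ0 : 0 < δ := by rw [hδ]; linarith
  have h1 := (hξ c).hasDerivAt
  rw [hasDerivAt_iff_isLittleO] at h1
  have h2 := h1.def hδ0
  have h3 : Tendsto (fun u : ℝ => c + (u : ℂ) * v) (𝓝 0) (𝓝 c) := by
    have : ContinuousAt (fun u : ℝ => c + (u : ℂ) * v) 0 := by fun_prop
    have h4 := this.tendsto
    simpa using h4
  have h4 := h3.eventually h2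
  obtain ⟨e, he, hball⟩ := Metric.eventually_nhds_iff.1 h4
  set u := min (e / 2) 1 with hu
  have hu0 : 0 < u := lt_min (by linarith) one_pos
  have hu1 : u ≤ 1 := min_le_right _ _
  have hue : u < e := lt_of_le_of_lt (min_le_left _ _) (by linarith)
  have h5 := hball (y := u) (by rw [Real.dist_eq, sub_zero, abs_of_pos hu0]; exact hue)
  have h6 := h (c + u * v) (hv2 u hu0.le hu1)
  have e1 : c - (c + u * v) = -(u * v) := by ring
  have e2 : c + u * v - c = u * v := by ring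
  rw [e1, norm_neg, norm_mul, Complex.norm_real, Real.norm_eq_abs, abs_of_pos hu0] at h6
  rw [e2, norm_mul, Complex.norm_real, Real.norm_eq_abs, abs_of_pos hu0] at h5
  have h7 : ‖ξ c - ξ (c + u * v)‖ ≤ ‖ξ (c + u * v) - ξ c - (u * v) • deriv ξ c‖ + ‖(u * v) • deriv ξ c‖ := by
    have : ξ c - ξ (c + u * v) = -((ξ (c + u * v) - ξ c - (u * v) • deriv ξ c) + (u * v) • deriv ξ c) := by ring
    rw [this, norm_neg]
    exact norm_add_le _ _
  have h8 : ‖(u * v) • deriv ξ c‖ = u * ‖v‖ * ‖deriv ξ c‖ := by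
    rw [norm_smul, norm_mul, Complex.norm_real, Real.norm_eq_abs, abs_of_pos hu0]
  rw [h8] at h7
  have h9 : L * (u * ‖v‖) ≤ δ * (u * ‖v‖) + u * ‖v‖ * ‖deriv ξ c‖ := by linarith
  have h10 : 0 < u * ‖v‖ := by positivity
  have h11 : L ≤ δ + ‖deriv ξ c‖ := by
    have : L * (u * ‖v‖) ≤ (δ + ‖deriv ξ c‖) * (u * ‖v‖) := by linarith
    exact le_of_mul_le_mul_right this h10
  rw [hδ] at h11
  linarith

/-- geometric sums -/
theorem geo (η : ℝ) (hη : 0 < η) (m : ℕ) :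
    ∑ k ∈ Finset.range m, Real.exp (-(η * ((k : ℝ) + 1))) ≤ 1 / (Real.exp η - 1) := by
  have h1 : 1 < Real.exp η := Real.one_lt_exp_iff.2 hη
  have h2 : ∀ k : ℕ, Real.exp (-(η * ((k : ℝ) + 1))) = (Real.exp η)⁻¹ ^ (k + 1) := by
    intro k
    rw [← Real.exp_neg, ← Real.exp_nat_mul]
    congr 1
    push_cast
    ring
  have h3 : ∑ k ∈ Finset.range m, Real.exp (-(η * ((k : ℝ) + 1))) =
      (1 - (Real.exp η)⁻¹ ^ m) / (Real.exp η - 1) := by
    induction m with
    | zero => simp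
    | succ m ih =>
      rw [Finset.sum_range_succ, ih, h2]
      have h3 : Real.exp η - 1 ≠ 0 := by linarith
      have h4 : Real.exp η ≠ 0 := (Real.exp_pos _).ne'
      have h5 : (Real.exp η)⁻¹ ^ (m + 1) * Real.exp η = (Real.exp η)⁻¹ ^ m := by
        rw [pow_succ, mul_assoc, inv_mul_cancel₀ h4, mul_one]
      rw [div_add' _ _ _ h3]
      congr 1
      rw [mul_sub, h5]
      ring
  rw [h3]
  apply div_le_div_of_nonneg_right _ (by linarith)
  have : 0 ≤ (Real.exp η)⁻¹ ^ m := by positivity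
  linarith

/-- the first point where the bound is reached -/
theorem first_point (h : ℝ → ℝ) (t₀ t₁ ρ : ℝ) (h01 : t₀ ≤ t₁) (hc : ContinuousOn h (Icc t₀ t₁)) (h0 : h t₀ ≤ ρ)
    (h1 : ρ ≤ h t₁) : ∃ t₂ ∈ Icc t₀ t₁, h t₂ = ρ ∧ ∀ t ∈ Icc t₀ t₂, h t ≤ ρ := by
  set T : Set ℝ := {t ∈ Icc t₀ t₁ | h t = ρ} with hT
  have hTc : IsCompact T := by
    have : IsClosed T := by
      have := hc.preimage_isClosed_of_isClosed isClosed_Icc (isClosed_singleton (x := ρ))
      exact this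
    exact isCompact_Icc.of_isClosed_subset this (fun t ht => ht.1)
  have hTn : T.Nonempty := by
    obtain ⟨t, ht, hte⟩ := intermediate_value_Icc h01 hc (show ρ ∈ Icc (h t₀) (h t₁) from ⟨h0, h1⟩)
    exact ⟨t, ht, hte⟩
  obtain ⟨t₂, ht₂, hmin⟩ := hTc.exists_isLeast hTn
  refine ⟨t₂, ht₂.1, ht₂.2, fun t ht => ?_⟩
  by_contra hcon
  push Not at hcon
  have hsub : Icc t₀ t ⊆ Icc t₀ t₁ := Icc_subset_Icc_right (ht.2.trans ht₂.1.2)
  obtain ⟨t', ht', hte'⟩ := intermediate_value_Icc ht.1 (hc.mono hsub) (show ρ ∈ Icc (h t₀) (h t) from ⟨h0, hcon.le⟩)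
  have h3 : t₂ ≤ t' := hmin ⟨hsub ht', hte'⟩
  have h4 : t' = t := le_antisymm ht'.2 (ht.2.trans h3)
  rw [h4] at hte'
  linarith

theorem sub_interval (h : ℝ → ℝ) (a b t₀ t₁ ρ : ℝ) (ht₀ : t₀ ∈ Icc a b) (ht₁ : t₁ ∈ Icc a b)
    (hc : ContinuousOn h (Icc a b)) (h0 : h t₀ ≤ ρ) (h1 : ρ ≤ h t₁) :
    ∃ p q t₂ : ℝ, Icc p q ⊆ Icc a b ∧ t₀ ∈ Icc p q ∧ t₂ ∈ Icc p q ∧ h t₂ = ρ ∧ ∀ t ∈ Icc p q, h t ≤ ρ := by
  rcases le_total t₀ t₁ with h01 | h10
  · obtain ⟨t₂, ht₂, hte, hall⟩ := first_point h t₀ t₁ ρ h01 (hc.mono (Icc_subset_Icc ht₀.1 ht₁.2)) h0 h1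
    exact ⟨t₀, t₂, t₂, Icc_subset_Icc ht₀.1 (ht₂.2.trans ht₁.2), left_mem_Icc.2 ht₂.1, right_mem_Icc.2 ht₂.1, hte, hall⟩
  · have hc' : ContinuousOn (fun t => h (-t)) (Icc (-t₀) (-t₁)) := by
      refine hc.comp continuous_neg.continuousOn ?_
      intro t ht
      exact ⟨by have := ht.2; have := ht₁.1; linarith, by have := ht.1; have := ht₀.2; linarith⟩
    obtain ⟨t₂, ht₂, hte, hall⟩ := first_point (fun t => h (-t)) (-t₀) (-t₁) ρ (by linarith) hc'
      (by simpa using h0) (by simpa using h1)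
    refine ⟨-t₂, t₀, -t₂, Icc_subset_Icc ?_ ht₀.2, right_mem_Icc.2 ?_, left_mem_Icc.2 ?_, hte, fun t ht => ?_⟩
    · have := ht₂.2; have := ht₁.1; linarith
    · have := ht₂.1; linarith
    · have := ht₂.1; linarith
    · have := hall (-t) ⟨by have := ht.2; linarith, by have := ht.1; linarith⟩
      simpa using this

section orbit

variable {d : ℕ} {c : ℂ} {y : ℕ → ℂ} {j : ℕ} {κ η a N s : ℝ}

theorem it_y (hy : ∀ i, y (i + 1) = f d c (y i)) (i m : ℕ) : (f d c)^[m] (y i) = y (i + m) := by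
  induction m with
  | zero => rfl
  | succ m ih =>
    rw [Function.iterate_succ_apply', ih, ← hy]
    rfl

theorem D_mul (hy : ∀ i, y (i + 1) = f d c (y i)) {i l : ℕ} (hil : i ≤ l) (hlj : l ≤ j) :
    ‖deriv ((f d c)^[j - i]) (y i)‖ = ‖deriv ((f d c)^[j - l]) (y l)‖ * ‖deriv ((f d c)^[l - i]) (y i)‖ := by
  have h1 : j - i = (j - l) + (l - i) := by omega
  rw [h1, chain, norm_mul, it_y hy]
  have h2 : i + (l - i) = l := by omega
  rw [h2]

theorem D_succ (hy : ∀ i, y (i + 1) = f d c (y i)) {i : ℕ} (hij : i < j) :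
    ‖deriv ((f d c)^[j - i]) (y i)‖ = ‖deriv ((f d c)^[j - (i + 1)]) (y (i + 1))‖ * (d * ‖y i‖ ^ (d - 1)) := by
  rw [D_mul hy (Nat.le_succ i) hij]
  have h1 : i + 1 - i = 1 := by omega
  rw [show i.succ = i + 1 from rfl, h1, Function.iterate_one, deriv_f, norm_mul, norm_pow, Complex.norm_natCast]

theorem D_self : ‖deriv ((f d c)^[j - j]) (y j)‖ = 1 := by
  rw [Nat.sub_self, Function.iterate_zero]
  simp

theorem D_pos (hκ : 0 < κ) (hN : 0 < N)
    (hA : ∀ i l, i ≤ l → l ≤ j → κ * N⁻¹ * Real.exp (η * ((l - i : ℕ) : ℝ)) ≤ ‖deriv ((f d c)^[l - i]) (y i)‖)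
    {i : ℕ} (hi : i ≤ j) : 0 < ‖deriv ((f d c)^[j - i]) (y i)‖ := by
  refine lt_of_lt_of_le ?_ (hA i j hi le_rfl)
  have := inv_pos.2 hN
  positivity

theorem D_sum (hy : ∀ i, y (i + 1) = f d c (y i)) (hκ : 0 < κ) (hη : 0 < η) (hN : 0 < N)
    (hA : ∀ i l, i ≤ l → l ≤ j → κ * N⁻¹ * Real.exp (η * ((l - i : ℕ) : ℝ)) ≤ ‖deriv ((f d c)^[l - i]) (y i)‖)
    {i : ℕ} (hi : i ≤ j) :
    ∑ l ∈ Finset.Ico (i + 1) (j + 1), ‖deriv ((f d c)^[j - l]) (y l)‖ / ‖deriv ((f d c)^[j - i]) (y i)‖ ≤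
      N / (κ * (Real.exp η - 1)) := by
  have hQ : 0 < Real.exp η - 1 := by
    have := Real.one_lt_exp_iff.2 hη
    linarith
  have h1 : ∀ l ∈ Finset.Ico (i + 1) (j + 1), ‖deriv ((f d c)^[j - l]) (y l)‖ / ‖deriv ((f d c)^[j - i]) (y i)‖ ≤
      N / κ * Real.exp (-(η * ((l - i : ℕ) : ℝ))) := by
    intro l hl
    rw [Finset.mem_Ico] at hl
    have hil : i ≤ l := by omega
    have hlj : l ≤ j := by omega
    have h2 := hA i l hil hlj
    have h3 := D_pos hκ hN hA hlj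
    have hw : 0 < κ * N⁻¹ * Real.exp (η * ((l - i : ℕ) : ℝ)) := by
      have := inv_pos.2 hN
      positivity
    rw [D_mul hy hil hlj, div_mul_eq_div_div, div_self h3.ne', Real.exp_neg]
    have h4 : 1 / ‖deriv ((f d c)^[l - i]) (y i)‖ ≤ 1 / (κ * N⁻¹ * Real.exp (η * ((l - i : ℕ) : ℝ))) :=
      one_div_le_one_div_of_le hw h2
    refine h4.trans (le_of_eq ?_)
    field_simp
  refine (Finset.sum_le_sum h1).trans ?_
  rw [← Finset.mul_sum, Finset.sum_Ico_eq_sum_range]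
  have h2 : ∑ k ∈ Finset.range (j + 1 - (i + 1)), Real.exp (-(η * ((i + 1 + k - i : ℕ) : ℝ))) =
      ∑ k ∈ Finset.range (j + 1 - (i + 1)), Real.exp (-(η * ((k : ℝ) + 1))) := by
    refine Finset.sum_congr rfl fun k _ => ?_
    have : i + 1 + k - i = k + 1 := by omega
    rw [this]
    push_cast
    rfl
  rw [h2]
  calc N / κ * ∑ k ∈ Finset.range (j + 1 - (i + 1)), Real.exp (-(η * ((k : ℝ) + 1)))
      ≤ N / κ * (1 / (Real.exp η - 1)) := mul_le_mul_of_nonneg_left (geo η hη _) (by positivity)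
    _ = N / (κ * (Real.exp η - 1)) := by field_simp

theorem D_inv (hκ : 0 < κ)
    (hB : ∀ i < j, κ * Real.exp (η * ((j - i : ℕ) : ℝ)) * ‖y i‖ ^ (-a) ≤ ‖deriv ((f d c)^[j - i]) (y i)‖)
    {i : ℕ} (hi : i < j) (hyi : 0 < ‖y i‖) :
    1 / ‖deriv ((f d c)^[j - i]) (y i)‖ ≤ ‖y i‖ ^ a * Real.exp (-(η * ((j - i : ℕ) : ℝ))) / κ := by
  have h1 := hB i hi
  have h2 : 0 < ‖y i‖ ^ (-a) := Real.rpow_pos_of_pos hyi _
  have hw : 0 < κ * Real.exp (η * ((j - i : ℕ) : ℝ)) * ‖y i‖ ^ (-a) := by positivity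
  refine (one_div_le_one_div_of_le hw h1).trans (le_of_eq ?_)
  rw [Real.exp_neg, Real.rpow_neg hyi.le]
  have h3 : 0 < ‖y i‖ ^ a := Real.rpow_pos_of_pos hyi _
  field_simp

theorem D_zero (hκ : 0 < κ) (hκ1 : κ ≤ 1) (hη : 0 < η) (ha0 : 0 < a) (ha1 : a ≤ 1) (h4 : ∀ i ≤ j, ‖y i‖ ≤ 4)
    (hyp : ∀ i < j, 0 < ‖y i‖)
    (hB : ∀ i < j, κ * Real.exp (η * ((j - i : ℕ) : ℝ)) * ‖y i‖ ^ (-a) ≤ ‖deriv ((f d c)^[j - i]) (y i)‖) :
    κ / 4 * Real.exp (η * j) ≤ ‖deriv ((f d c)^[j - 0]) (y 0)‖ := by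
  rcases Nat.eq_zero_or_pos j with hj | hj
  · subst hj
    have : ‖deriv ((f d c)^[0 - 0]) (y 0)‖ = 1 := D_self
    rw [this]
    simp
    linarith
  · refine le_trans ?_ (hB 0 hj)
    have h0 := hyp 0 hj
    have h1 : (4 : ℝ)⁻¹ ≤ ‖y 0‖ ^ (-a) := by
      rw [Real.rpow_neg h0.le]
      apply inv_anti₀ (Real.rpow_pos_of_pos h0 _)
      calc ‖y 0‖ ^ a ≤ 4 ^ a := Real.rpow_le_rpow h0.le (h4 0 (Nat.zero_le _)) ha0.le
        _ ≤ 4 ^ (1 : ℝ) := Real.rpow_le_rpow_of_exponent_le (by norm_num) ha1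
        _ = 4 := Real.rpow_one 4
    rw [Nat.sub_zero]
    calc κ / 4 * Real.exp (η * j) = κ * Real.exp (η * j) * (4 : ℝ)⁻¹ := by ring
      _ ≤ κ * Real.exp (η * j) * ‖y 0‖ ^ (-a) := mul_le_mul_of_nonneg_left h1 (by positivity)

/-- the smallness sum -/
theorem E_sum (hy : ∀ i, y (i + 1) = f d c (y i)) (hκ : 0 < κ) (hη : 0 < η) (hN : 0 < N) (ha1 : a ≤ 1)
    (hs : 0 < s) (hsy : ∀ i < j, s ≤ ‖y i‖)
    (hA : ∀ i l, i ≤ l → l ≤ j → κ * N⁻¹ * Real.exp (η * ((l - i : ℕ) : ℝ)) ≤ ‖deriv ((f d c)^[l - i]) (y i)‖)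
    (hB : ∀ i < j, κ * Real.exp (η * ((j - i : ℕ) : ℝ)) * ‖y i‖ ^ (-a) ≤ ‖deriv ((f d c)^[j - i]) (y i)‖)
    (lam ρ : ℝ) (hlam : 0 ≤ lam) (hρ : 0 ≤ ρ) :
    ∑ i ∈ Finset.range j, (lam / ‖deriv ((f d c)^[j - i]) (y i)‖ + ρ * ∑ l ∈ Finset.Ico (i + 1) (j + 1),
      ‖deriv ((f d c)^[j - l]) (y l)‖ / ‖deriv ((f d c)^[j - i]) (y i)‖) / ‖y i‖ ≤
    lam * s ^ (a - 1) / (κ * (Real.exp η - 1)) + ρ * (N / (κ * (Real.exp η - 1))) * j / s := by
  have hQ : 0 < Real.exp η - 1 := by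
    have := Real.one_lt_exp_iff.2 hη
    linarith
  have h1 : ∀ i ∈ Finset.range j, (lam / ‖deriv ((f d c)^[j - i]) (y i)‖ + ρ * ∑ l ∈ Finset.Ico (i + 1) (j + 1),
      ‖deriv ((f d c)^[j - l]) (y l)‖ / ‖deriv ((f d c)^[j - i]) (y i)‖) / ‖y i‖ ≤
      lam * s ^ (a - 1) / κ * Real.exp (-(η * ((j - i : ℕ) : ℝ))) + ρ * (N / (κ * (Real.exp η - 1))) / s := by
    intro i hi
    rw [Finset.mem_range] at hi
    have hsi := hsy i hi
    have hyi : 0 < ‖y i‖ := lt_of_lt_of_le hs hsi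
    rw [add_div]
    apply add_le_add
    · have h2 := D_inv hκ hB hi hyi
      have h3 : lam / ‖deriv ((f d c)^[j - i]) (y i)‖ / ‖y i‖ =
          lam * (1 / ‖deriv ((f d c)^[j - i]) (y i)‖) * ‖y i‖⁻¹ := by ring
      rw [h3]
      have h5 : ‖y i‖ ^ a * ‖y i‖⁻¹ = ‖y i‖ ^ (a - 1) := by
        rw [Real.rpow_sub hyi, Real.rpow_one]
        rfl
      have h6 : ‖y i‖ ^ (a - 1) ≤ s ^ (a - 1) := Real.rpow_le_rpow_of_nonpos hs hsi (by linarith)
      calc lam * (1 / ‖deriv ((f d c)^[j - i]) (y i)‖) * ‖y i‖⁻¹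
          ≤ lam * (‖y i‖ ^ a * Real.exp (-(η * ((j - i : ℕ) : ℝ))) / κ) * ‖y i‖⁻¹ := by gcongr
        _ = lam * (‖y i‖ ^ a * ‖y i‖⁻¹) / κ * Real.exp (-(η * ((j - i : ℕ) : ℝ))) := by ring
        _ = lam * ‖y i‖ ^ (a - 1) / κ * Real.exp (-(η * ((j - i : ℕ) : ℝ))) := by rw [h5]
        _ ≤ lam * s ^ (a - 1) / κ * Real.exp (-(η * ((j - i : ℕ) : ℝ))) := by gcongr
    · have h2 := D_sum hy hκ hη hN hA hi.le
      have h3 : 0 ≤ ρ * (N / (κ * (Real.exp η - 1))) := by positivity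
      calc ρ * (∑ l ∈ Finset.Ico (i + 1) (j + 1),
            ‖deriv ((f d c)^[j - l]) (y l)‖ / ‖deriv ((f d c)^[j - i]) (y i)‖) / ‖y i‖
          ≤ ρ * (N / (κ * (Real.exp η - 1))) / ‖y i‖ := by gcongr
        _ ≤ ρ * (N / (κ * (Real.exp η - 1))) / s := by gcongr
  refine (Finset.sum_le_sum h1).trans ?_
  rw [Finset.sum_add_distrib, ← Finset.mul_sum, Finset.sum_const, Finset.card_range, nsmul_eq_mul]
  have h2 : ∑ i ∈ Finset.range j, Real.exp (-(η * ((j - i : ℕ) : ℝ))) ≤ 1 / (Real.exp η - 1) := by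
    have h3 := Finset.sum_range_reflect (fun k : ℕ => Real.exp (-(η * ((k : ℝ) + 1)))) j
    have h4 : ∑ i ∈ Finset.range j, Real.exp (-(η * ((j - i : ℕ) : ℝ))) =
        ∑ i ∈ Finset.range j, Real.exp (-(η * (((j - 1 - i : ℕ) : ℝ) + 1))) := by
      refine Finset.sum_congr rfl fun i hi => ?_
      rw [Finset.mem_range] at hi
      have : j - i = (j - 1 - i) + 1 := by omega
      rw [this]
      push_cast
      rfl
    rw [h4, h3]
    exact geo η hη j
  have hsa : 0 < s ^ (a - 1) := Real.rpow_pos_of_pos hs _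
  apply add_le_add
  · calc lam * s ^ (a - 1) / κ * ∑ i ∈ Finset.range j, Real.exp (-(η * ((j - i : ℕ) : ℝ)))
        ≤ lam * s ^ (a - 1) / κ * (1 / (Real.exp η - 1)) := by gcongr
      _ = lam * s ^ (a - 1) / (κ * (Real.exp η - 1)) := by field_simp
  · apply le_of_eq
    ring

end orbit

end ENTaux

open ENTaux in
theorem t_ENT (h1 : S_PASS) (h2 : S_EXN) (h3 : S_BACK) (h4 : S_DVG) : S_ENT := by
  intro d χ c₀ hd hL τ ε hτd hτ1 hε
  have hdr : (2 : ℝ) ≤ d := by exact_mod_cast hd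
  have hτ0 : 0 < τ := lt_of_lt_of_le (by positivity) hτd
  obtain ⟨g, hg⟩ : ∃ g, g = (1 - τ * ((d : ℝ) - 1)) / 2 := ⟨_, rfl⟩
  have hgp : 0 < g := by rw [hg]; linarith
  have hτg : τ * ((d : ℝ) - 1) < 1 - g := by rw [hg]; linarith
  obtain ⟨e0, he0⟩ : ∃ e0, e0 = min (min (g / 8) (ε / 8)) (min (τ / 2) (1 / 4)) := ⟨_, rfl⟩
  have he0p : 0 < e0 := by
    rw [he0]
    exact lt_min (lt_min (by positivity) (by positivity)) (lt_min (by positivity) (by norm_num))
  have he1 : e0 ≤ g / 8 := by rw [he0]; exact (min_le_left _ _).trans (min_le_left _ _)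
  have he2 : e0 ≤ ε / 8 := by rw [he0]; exact (min_le_left _ _).trans (min_le_right _ _)
  have he3 : e0 ≤ τ / 2 := by rw [he0]; exact (min_le_right _ _).trans (min_le_left _ _)
  have he4 : e0 ≤ 1 / 4 := by rw [he0]; exact (min_le_right _ _).trans (min_le_right _ _)
  obtain ⟨C, κ1, r1, hC, hκ1, hκ11, hr1, hr14, hpass⟩ := h1 d χ c₀ hd hL e0 he0p (by linarith)
  obtain ⟨κ, η, a, r2, hκ, hκle, hη, ha0, ha1, hr2, hr24, hexn⟩ := h2 d χ c₀ hd hL τ g hτ0 hτg hgp
  obtain ⟨κB, hκB, hback⟩ := h3 d hd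
  obtain ⟨Q, hQ⟩ : ∃ Q, Q = Real.exp η - 1 := ⟨_, rfl⟩
  have hQp : 0 < Q := by
    rw [hQ]
    have := Real.one_lt_exp_iff.2 hη
    linarith
  obtain ⟨s1, hs1, hS1⟩ := small_rpow (τ - e0) κ1 (by linarith) hκ1
  obtain ⟨s2, hs2, hS2⟩ := small_rpow (g - 2 * e0)
    (min (κ * Q / 2) (min (κB * κ ^ 2 * Q * η / 192) (κ ^ 2 * Q / 1536))) (by linarith)
    (lt_min (by positivity) (lt_min (by positivity) (by positivity)))
  obtain ⟨s3, hs3, hS3⟩ := small_rpow (ε - 2 * e0) (κ / 96) (by linarith) (by positivity)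
  obtain ⟨s4, hs4, hS4⟩ := small_rpow (τ * a) (min (κB * κ * Q / 6) (κ / 96)) (by positivity)
    (lt_min (by positivity) (by positivity))
  refine ⟨min (min r1 r2) (min (min s1 s2) (min s3 s4)),
    lt_min (lt_min hr1 hr2) (lt_min (lt_min hs1 hs2) (lt_min hs3 hs4)),
    ((min_le_left _ _).trans (min_le_left _ _)).trans hr14, fun R hR hRR => ?_⟩
  have hRr1 : R ≤ r1 := hRR.trans ((min_le_left _ _).trans (min_le_left _ _))
  have hRr2 : R ≤ r2 := hRR.trans ((min_le_left _ _).trans (min_le_right _ _))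
  have hP := hS1 R hR (hRR.trans ((min_le_right _ _).trans ((min_le_left _ _).trans (min_le_left _ _))))
  have hG := hS2 R hR (hRR.trans ((min_le_right _ _).trans ((min_le_left _ _).trans (min_le_right _ _))))
  have hE := hS3 R hR (hRR.trans ((min_le_right _ _).trans ((min_le_right _ _).trans (min_le_left _ _))))
  have hA0 := hS4 R hR (hRR.trans ((min_le_right _ _).trans ((min_le_right _ _).trans (min_le_right _ _))))
  have hG1 := hG.trans (min_le_left _ _)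
  have hG2 := hG.trans ((min_le_right _ _).trans (min_le_left _ _))
  have hG3 := hG.trans ((min_le_right _ _).trans (min_le_right _ _))
  have hA1 := hA0.trans (min_le_left _ _)
  have hA2 := hA0.trans (min_le_right _ _)
  have hR1 : R ≤ 1 := by linarith
  obtain ⟨n, -, hn1, hn2⟩ := hpass R hR hRr1
  have hnorm : ∀ c : ℂ, ‖c - c₀‖ ≤ R → ‖c‖ ≤ 3 := by
    intro c hc
    exact ((hn1 c c hc (by rw [sub_self, norm_zero]; exact hR.le)).1 0 (Nat.zero_le n)).1
  refine ⟨n, ?_, ?_, ?_⟩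
  · intro c hc i hi
    have h5 := (hn1 c c hc (by rw [sub_self, norm_zero]; exact hR.le)).2.1 i hi
    refine le_trans ?_ h5
    have h6 : R ^ τ = R ^ (τ - e0) * R ^ e0 := by
      rw [← Real.rpow_add hR]
      congr 1
      ring
    rw [h6]
    exact mul_le_mul_of_nonneg_right hP (Real.rpow_nonneg hR.le _)
  · intro c hc hfar hbd
    have hRg : 0 < R ^ (1 - g) := Real.rpow_pos_of_pos hR _
    apply h4 d n c (κ * R ^ (1 - g)) η hd (by positivity) hη
    · intro l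
      refine (hexn c R ((f d c)^[n] c) l hR hRr2 hc ?_ ?_).1
      · intro m _
        rw [← Function.iterate_add_apply]
        exact hbd _
      · intro m _
        rw [← Function.iterate_add_apply, add_comm]
        exact hfar m
    · have h5 := deriv_lower (fun t : ℂ => (f d t)^[n] t) (diff_xi d n) c₀ c R (R ^ (2 * e0 - 1)) hR hc
        (fun c' hc' => hn2 c c' hc hc')
      refine le_trans ?_ h5
      rw [← hQ, div_le_iff₀ (by positivity)]
      have h6 : R ^ (2 * e0 - 1) * R ^ (1 - g) = R ^ (2 * e0 - g) := by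
        rw [← Real.rpow_add hR]
        congr 1
        ring
      have h7 : R ^ (2 * e0 - g) * R ^ (g - 2 * e0) = 1 := by
        rw [← Real.rpow_add hR]
        have : 2 * e0 - g + (g - 2 * e0) = 0 := by ring
        rw [this, Real.rpow_zero]
      have h8 : 0 < R ^ (2 * e0 - g) := Real.rpow_pos_of_pos hR _
      calc (2 : ℝ) = 2 * (R ^ (2 * e0 - g) * R ^ (g - 2 * e0)) := by rw [h7]; ring
        _ ≤ 2 * (R ^ (2 * e0 - g) * (κ * Q / 2)) := by gcongr
        _ = (R ^ (2 * e0 - 1) * R ^ (1 - g)) * κ * Q := by rw [h6]; ring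
        _ = R ^ (2 * e0 - 1) * (κ * R ^ (1 - g) * Q) := by ring
  · intro γ p0 q0 t₀ j ht₀ hγc hγR hfar hnear htrap
    obtain ⟨c, hc⟩ : ∃ c, c = γ t₀ := ⟨_, rfl⟩
    rw [← hc] at hfar hnear
    obtain ⟨y, hyd⟩ : ∃ y : ℕ → ℂ, ∀ i, y i = (f d c)^[n + i] c := ⟨_, fun i => rfl⟩
    simp only [← hyd] at hfar hnear
    have hcR : ‖c - c₀‖ ≤ R := by rw [hc]; exact hγR t₀ ht₀
    have hc3 := hnorm c hcR
    have hy : ∀ i, y (i + 1) = f d c (y i) := by
      intro i
      rw [hyd, hyd, ← add_assoc, Function.iterate_succ_apply']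
    obtain ⟨s, hs⟩ : ∃ s, s = R ^ τ := ⟨_, rfl⟩
    rw [← hs] at hfar hnear htrap
    have hs0 : 0 < s := by rw [hs]; exact Real.rpow_pos_of_pos hR _
    have hs1' : s ≤ 1 := by rw [hs]; exact Real.rpow_le_one hR.le hR1 hτ0.le
    have hy4 : ∀ i ≤ j, ‖y i‖ ≤ 4 := by
      intro i hi
      by_contra hcon
      push Not at hcon
      have hall : ∀ m, 4 < ‖y (i + m)‖ := by
        intro m
        induction m with
        | zero => exact hcon
        | succ m ih =>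
          rw [← add_assoc, hy]
          have h5 : ‖y (i + m)‖ ^ 2 ≤ ‖y (i + m)‖ ^ d := pow_le_pow_right₀ (by linarith) hd
          have h6 : ‖y (i + m)‖ ^ d ≤ ‖f d c (y (i + m))‖ + ‖c‖ := by
            have : (y (i + m)) ^ d = f d c (y (i + m)) - c := by
              unfold f
              ring
            rw [← norm_pow, this]
            exact norm_sub_le _ _
          nlinarith
      have h5 := hall (j - i)
      have h6 : i + (j - i) = j := by omega
      rw [h6] at h5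
      linarith
    have hyp : ∀ i < j, 0 < ‖y i‖ := fun i hi => lt_of_lt_of_le hs0 (hfar i hi)
    obtain ⟨N, hN⟩ : ∃ N, N = R ^ (g - 1) := ⟨_, rfl⟩
    have hNp : 0 < N := by rw [hN]; exact Real.rpow_pos_of_pos hR _
    have hNinv : N⁻¹ = R ^ (1 - g) := by
      rw [hN, ← Real.rpow_neg hR.le]
      congr 1
      ring
    have hA : ∀ i l, i ≤ l → l ≤ j →
        κ * N⁻¹ * Real.exp (η * ((l - i : ℕ) : ℝ)) ≤ ‖deriv ((f d c)^[l - i]) (y i)‖ := by
      intro i l hil hlj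
      rw [hNinv]
      refine (hexn c R (y i) (l - i) hR hRr2 hcR ?_ ?_).1
      · intro m hm
        rw [it_y hy]
        exact hy4 _ (by omega)
      · intro m hm
        rw [it_y hy, ← hs]
        exact hfar _ (by omega)
    have hB : ∀ i < j, κ * Real.exp (η * ((j - i : ℕ) : ℝ)) * ‖y i‖ ^ (-a) ≤ ‖deriv ((f d c)^[j - i]) (y i)‖ := by
      intro i hij
      refine (hexn c R (y i) (j - i) hR hRr2 hcR ?_ ?_).2 (by omega) ?_
      · intro m hm
        rw [it_y hy]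
        exact hy4 _ (by omega)
      · intro m hm
        rw [it_y hy, ← hs]
        exact hfar _ (by omega)
      · rw [it_y hy]
        have h5 : i + (j - i) = j := by omega
        rw [h5]
        refine hnear.le.trans ?_
        rw [hs]
        exact Real.rpow_le_rpow_of_exponent_ge hR hR1 hτd
    obtain ⟨D, hDd⟩ : ∃ D : ℕ → ℝ, ∀ i, D i = ‖deriv ((f d c)^[j - i]) (y i)‖ := ⟨_, fun i => rfl⟩
    have hD0 : κ / 4 * Real.exp (η * j) ≤ D 0 := by
      rw [hDd]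
      exact D_zero hκ hκle hη ha0 ha1 hy4 hyp hB
    have hDpos : ∀ i ≤ j, 0 < D i := by
      intro i hi
      rw [hDd]
      exact D_pos hκ hNp hA hi
    have hD0p := hDpos 0 (Nat.zero_le j)
    obtain ⟨M, hM⟩ : ∃ M, M = R ^ (1 - 2 * e0) := ⟨_, rfl⟩
    have hMp : 0 < M := by rw [hM]; exact Real.rpow_pos_of_pos hR _
    obtain ⟨G, hGd⟩ : ∃ G, G = R ^ (g - 2 * e0) := ⟨_, rfl⟩
    rw [← hGd] at hG1 hG2 hG3
    have hGp : 0 < G := by rw [hGd]; exact Real.rpow_pos_of_pos hR _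
    have hMN : M * N = G := by
      rw [hM, hN, hGd, ← Real.rpow_add hR]
      congr 1
      ring
    have hLM : R ^ (2 * e0 - 1) * M = 1 := by
      rw [hM, ← Real.rpow_add hR]
      have : 2 * e0 - 1 + (1 - 2 * e0) = 0 := by ring
      rw [this, Real.rpow_zero]
    obtain ⟨A, hAd⟩ : ∃ A, A = R ^ (τ * a) := ⟨_, rfl⟩
    rw [← hAd] at hA1 hA2
    have hsA : s ^ a = A := by rw [hs, hAd, ← Real.rpow_mul hR.le]
    have hAp : 0 < A := by rw [hAd]; exact Real.rpow_pos_of_pos hR _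
    obtain ⟨ρ, hρ⟩ : ∃ ρ, ρ = 24 * s * M / D 0 := ⟨_, rfl⟩
    have hρ0 : 0 < ρ := by rw [hρ]; positivity
    have hexp1 : 1 ≤ Real.exp (η * j) := Real.one_le_exp (by positivity)
    have hD0' : κ / 4 ≤ D 0 := by
      refine le_trans ?_ hD0
      exact le_mul_of_one_le_right (by positivity) hexp1
    have hρle : ρ ≤ 96 * s * M / κ := by
      rw [hρ]
      calc 24 * s * M / D 0 ≤ 24 * s * M / (κ / 4) := by gcongr
        _ = 96 * s * M / κ := by field_simp; ring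
    obtain ⟨E, hEd⟩ : ∃ E : ℕ → ℝ, ∀ i, E i = 3 * s / D i + ρ * ∑ l ∈ Finset.Ico (i + 1) (j + 1), D l / D i :=
      ⟨_, fun i => rfl⟩
    have hSum : ∀ i ≤ j, ∑ l ∈ Finset.Ico (i + 1) (j + 1), D l / D i ≤ N / (κ * Q) := by
      intro i hi
      simp only [hDd]
      rw [hQ]
      exact D_sum hy hκ hη hNp hA hi
    have hEsum : ∑ i ∈ Finset.range j, E i / ‖y i‖ ≤ κB := by
      have h5 := E_sum hy hκ hη hNp ha1 hs0 hfar hA hB (3 * s) ρ (by positivity) hρ0.le
      simp only [← hDd] at h5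
      simp only [hEd]
      refine h5.trans ?_
      rw [← hQ]
      have h6 : 3 * s * s ^ (a - 1) = 3 * A := by
        rw [← hsA, Real.rpow_sub hs0, Real.rpow_one]
        field_simp
      rw [h6]
      have h7 : 3 * A / (κ * Q) ≤ κB / 2 := by
        rw [div_le_iff₀ (by positivity)]
        calc 3 * A ≤ 3 * (κB * κ * Q / 6) := by gcongr
          _ = κB / 2 * (κ * Q) := by ring
      have hexpj : (j : ℝ) / Real.exp (η * j) ≤ 1 / η := by
        rw [div_le_div_iff₀ (Real.exp_pos _) hη]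
        have := Real.add_one_le_exp (η * j)
        linarith
      have h8 : ρ * (N / (κ * Q)) * j / s ≤ κB / 2 := by
        have h9 : ρ ≤ 96 * s * M / (κ * Real.exp (η * j)) := by
          rw [hρ]
          calc 24 * s * M / D 0 ≤ 24 * s * M / (κ / 4 * Real.exp (η * j)) := by gcongr
            _ = 96 * s * M / (κ * Real.exp (η * j)) := by field_simp; ring
        calc ρ * (N / (κ * Q)) * j / s ≤ (96 * s * M / (κ * Real.exp (η * j))) * (N / (κ * Q)) * j / s := by gcongr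
          _ = 96 * (M * N) / (κ ^ 2 * Q) * (j / Real.exp (η * j)) := by field_simp
          _ ≤ 96 * (M * N) / (κ ^ 2 * Q) * (1 / η) := by gcongr
          _ = 96 * G / (κ ^ 2 * Q * η) := by rw [hMN]; field_simp
          _ ≤ κB / 2 := by
            rw [div_le_iff₀ (by positivity)]
            calc 96 * G ≤ 96 * (κB * κ ^ 2 * Q * η / 192) := by gcongr
              _ = κB / 2 * (κ ^ 2 * Q * η) := by ring
      linarith
    obtain ⟨Z, hZ⟩ : ∃ Z : ℕ → ℝ → ℂ, ∀ i t, Z i t = (f d (γ t))^[n + i] (γ t) := ⟨_, fun i t => rfl⟩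
    have hZt : ∀ i, Z i t₀ = y i := by
      intro i
      rw [hZ, hyd, hc]
    have hZc : ∀ i, ContinuousOn (Z i) (Icc p0 q0) := by
      have h5 : ∀ m : ℕ, ContinuousOn (fun t => (f d (γ t))^[m] (γ t)) (Icc p0 q0) := by
        intro m
        induction m with
        | zero => exact hγc
        | succ m ih =>
          have : (fun t => (f d (γ t))^[m + 1] (γ t)) = fun t => ((f d (γ t))^[m] (γ t)) ^ d + γ t := by
            funext t
            rw [Function.iterate_succ_apply']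
            rfl
          rw [this]
          exact (ih.pow d).add hγc
      intro i
      have : Z i = fun t => (f d (γ t))^[n + i] (γ t) := funext fun t => hZ i t
      rw [this]
      exact h5 _
    have happ : ∀ p q : ℝ, Icc p q ⊆ Icc p0 q0 → t₀ ∈ Icc p q → (∀ t ∈ Icc p q, ‖γ t - γ t₀‖ ≤ ρ) →
        ∀ i ≤ j, ∀ t ∈ Icc p q, ‖Z i t - Z i t₀‖ ≤ 2 * E i := by
      intro p q hpq htpq hγρ
      apply hback j p q t₀ (3 * s) ρ Z γ D E htpq (by positivity) hρ0.le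
      · intro i _
        exact (hZc i).mono hpq
      · intro i _ t _
        rw [hZ, hZ, ← add_assoc, Function.iterate_succ_apply']
        rfl
      · exact hγρ
      · intro t ht
        have h5 : ‖Z j t‖ ≤ 2 * s := by
          rw [hZ]
          exact htrap t (hpq ht)
        rw [hZt]
        refine (norm_sub_le _ _).trans ?_
        linarith
      · intro i hi
        rw [hZt]
        exact norm_pos_iff.1 (hyp i hi)
      · intro i hi
        rw [hZt, hDd, hDd]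
        exact D_succ hy hi
      · rw [hDd]
        exact D_self
      · intro i _
        exact hEd i
      · simp only [hZt]
        exact hEsum
    have hρall : ∀ t ∈ Icc p0 q0, ‖γ t - γ t₀‖ ≤ ρ := by
      by_contra hcon
      push Not at hcon
      obtain ⟨t1, ht1, hlt⟩ := hcon
      obtain ⟨p, q, t2, hpq, htpq, ht2, ht2e, hall⟩ := sub_interval (fun t => ‖γ t - γ t₀‖) p0 q0 t₀ t1 ρ ht₀ ht1
        ((hγc.sub continuousOn_const).norm) (by simp only [sub_self, norm_zero]; exact hρ0.le) hlt.le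
      have h5 := happ p q hpq htpq hall 0 (Nat.zero_le j) t2 ht2
      have h6 := hn2 (γ t2) (γ t₀) (hγR t2 (hpq ht2)) (hγR t₀ ht₀)
      have h7 : ‖(f d (γ t2))^[n] (γ t2) - (f d (γ t₀))^[n] (γ t₀)‖ = ‖Z 0 t2 - Z 0 t₀‖ := by
        rw [hZ, hZ]
        rfl
      have ht2e' : ‖γ t2 - γ t₀‖ = ρ := ht2e
      rw [h7, ht2e'] at h6
      have h8 : R ^ (2 * e0 - 1) * ρ = 24 * s / D 0 := by
        rw [hρ]
        calc R ^ (2 * e0 - 1) * (24 * s * M / D 0) = (R ^ (2 * e0 - 1) * M) * (24 * s) / D 0 := by ring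
          _ = 24 * s / D 0 := by rw [hLM, one_mul]
      have h9 : ρ * ∑ l ∈ Finset.Ico (0 + 1) (j + 1), D l / D 0 ≤ 3 * s / (2 * D 0) := by
        calc ρ * ∑ l ∈ Finset.Ico (0 + 1) (j + 1), D l / D 0 ≤ ρ * (N / (κ * Q)) := by
              gcongr
              exact hSum 0 (Nat.zero_le j)
          _ = 24 * s * (M * N) / (D 0 * (κ * Q)) := by rw [hρ]; field_simp
          _ = 24 * s * G / (D 0 * (κ * Q)) := by rw [hMN]
          _ ≤ 24 * s * (κ * Q / 16) / (D 0 * (κ * Q)) := by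
              gcongr
              refine hG3.trans ?_
              have : κ ^ 2 ≤ κ := by nlinarith
              have h10 : κ ^ 2 * Q ≤ κ * Q := by gcongr
              have h11 : 0 < κ * Q := by positivity
              linarith
          _ = 3 * s / (2 * D 0) := by field_simp; ring
      have h10 : E 0 ≤ 3 * s / D 0 + 3 * s / (2 * D 0) := by
        rw [hEd]
        linarith
      have h11 : 24 * s / D 0 ≤ 2 * (3 * s / D 0 + 3 * s / (2 * D 0)) := by
        rw [← h8]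
        linarith
      have h12 : 2 * (3 * s / D 0 + 3 * s / (2 * D 0)) = 9 * s / D 0 := by field_simp; ring
      rw [h12] at h11
      have h13 : 9 * s / D 0 < 24 * s / D 0 := by
        apply div_lt_div_of_pos_right _ hD0p
        linarith
      linarith
    refine ⟨fun t ht => ?_, fun i hi hyi t ht => ?_⟩
    · refine (hρall t ht).trans (hρle.trans ?_)
      have h5 : s * M = R ^ (1 + τ - ε) * R ^ (ε - 2 * e0) := by
        rw [hs, hM, ← Real.rpow_add hR, ← Real.rpow_add hR]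
        congr 1
        ring
      have h6 : 0 < R ^ (1 + τ - ε) := Real.rpow_pos_of_pos hR _
      rw [div_le_iff₀ hκ]
      calc 96 * s * M = 96 * (s * M) := by ring
        _ = 96 * (R ^ (1 + τ - ε) * R ^ (ε - 2 * e0)) := by rw [h5]
        _ ≤ 96 * (R ^ (1 + τ - ε) * (κ / 96)) := by gcongr
        _ = R ^ (1 + τ - ε) * κ := by ring
    · have h5 := happ p0 q0 (subset_refl _) ht₀ hρall i hi.le t ht
      rw [hZ, hZ] at h5
      refine h5.trans ?_
      rw [← hc] at hyi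
      rw [← hyd] at hyi
      rw [← hs] at hyi ⊢
      have hyi0 := hyp i hi
      have h6 : 3 * s / D i ≤ s / 16 := by
        have h7 := D_inv hκ hB hi hyi0
        rw [← hDd] at h7
        have h8 : ‖y i‖ ^ a ≤ 2 * A := by
          calc ‖y i‖ ^ a ≤ (2 * s) ^ a := Real.rpow_le_rpow hyi0.le hyi ha0.le
            _ = 2 ^ a * s ^ a := Real.mul_rpow (by norm_num) hs0.le
            _ ≤ 2 ^ (1 : ℝ) * s ^ a := by
                gcongr
                · norm_num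
            _ = 2 * A := by rw [Real.rpow_one, hsA]
        have h9 : Real.exp (-(η * ((j - i : ℕ) : ℝ))) ≤ 1 := by
          rw [Real.exp_le_one_iff]
          have : 0 ≤ η * ((j - i : ℕ) : ℝ) := by positivity
          linarith
        have h10 : 0 ≤ ‖y i‖ ^ a := Real.rpow_nonneg hyi0.le _
        calc 3 * s / D i = 3 * s * (1 / D i) := by ring
          _ ≤ 3 * s * (‖y i‖ ^ a * Real.exp (-(η * ((j - i : ℕ) : ℝ))) / κ) := by gcongr
          _ ≤ 3 * s * (2 * A * 1 / κ) := by gcongr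
          _ ≤ 3 * s * (2 * (κ / 96) * 1 / κ) := by gcongr
          _ = s / 16 := by field_simp; ring
      have h7 : ρ * ∑ l ∈ Finset.Ico (i + 1) (j + 1), D l / D i ≤ s / 16 := by
        calc ρ * ∑ l ∈ Finset.Ico (i + 1) (j + 1), D l / D i ≤ ρ * (N / (κ * Q)) := by
              gcongr
              exact hSum i hi.le
          _ ≤ (96 * s * M / κ) * (N / (κ * Q)) := by gcongr
          _ = 96 * s * (M * N) / (κ ^ 2 * Q) := by field_simp
          _ = 96 * s * G / (κ ^ 2 * Q) := by rw [hMN]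
          _ ≤ 96 * s * (κ ^ 2 * Q / 1536) / (κ ^ 2 * Q) := by gcongr
          _ = s / 16 := by field_simp; ring
      rw [hEd]
      linarith

end Pool.Agent.N253.EC
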