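import Pool.Agent.N253.EC.Stm
import Pool.Agent.N253.LC.Exq

/-!
# Expansion at all times and at the returns (project EC of helper253; by helper747, after
`LC/Exq.lean` of helper301)
-/

set_option autoImplicit false

open Set Filter Metric Topology

namespace Pool.Agent.N253.EC

open Pool.Agent.TH279.MD Pool.Agent.Y298.SH Pool.Agent.Y298.SH.CD Pool.Agent.Y298.CA
open Pool.Agent.N253.LC
open Pool.Agent.N253.SM.EXPaux (diff_f chain)

namespace EXNaux

/-- the contradiction which excludes a passage -/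
lemma no_pass2 {d : ℕ} (hd : 2 ≤ d) {κ r X : ℝ} (hκ : 0 < κ) (hr : 0 < r)
    (hrκ : r ≤ (κ / 2) ^ (4 * d)) (h1 : κ * r ^ (1 / (2 * (d : ℝ))) ≤ X)
    (h2 : X ≤ r ^ (3 / (4 * (d : ℝ)))) : False := by
  have hd0 : (0 : ℝ) < d := by
    have : 0 < d := by omega
    exact_mod_cast this
  have e3 : r ^ (3 / (4 * (d : ℝ))) = r ^ (1 / (2 * (d : ℝ))) * r ^ (1 / (4 * (d : ℝ))) := by
    rw [← Real.rpow_add hr]
    congr 1
    field_simp
    norm_num
  have e4 : r ^ (1 / (4 * (d : ℝ))) ≤ κ / 2 := by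
    calc r ^ (1 / (4 * (d : ℝ))) ≤ ((κ / 2) ^ (4 * d)) ^ (1 / (4 * (d : ℝ))) :=
          Real.rpow_le_rpow hr.le hrκ (by positivity)
      _ = κ / 2 := by
          rw [← Real.rpow_natCast, ← Real.rpow_mul (by positivity)]
          push_cast
          rw [mul_one_div_cancel (by positivity), Real.rpow_one]
  have e5 : 0 < r ^ (1 / (2 * (d : ℝ))) := by positivity
  have e6 : κ * r ^ (1 / (2 * (d : ℝ))) ≤ r ^ (1 / (2 * (d : ℝ))) * (κ / 2) := by
    calc κ * r ^ (1 / (2 * (d : ℝ))) ≤ r ^ (3 / (4 * (d : ℝ))) := h1.trans h2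
      _ = r ^ (1 / (2 * (d : ℝ))) * r ^ (1 / (4 * (d : ℝ))) := e3
      _ ≤ _ := mul_le_mul_of_nonneg_left e4 e5.le
  nlinarith

end EXNaux

open EXNaux

/-- **EXN** -/
theorem t_EXN (h : S_EXP2) : S_EXN := by
  intro d χ c₀ hd hL τ g hτ hτg hg
  have hdR : (2 : ℝ) ≤ d := by exact_mod_cast hd
  have hd0 : (0 : ℝ) < d := by linarith
  obtain ⟨k0, η0, K, rE, hk0, hk01, hη0, hK, hrE, hrE4, hexp, δ₁, hδ₁, hδ₁4, hb⟩ :=
    h d χ c₀ hd hL τ hτ (by linarith)
  have hτd : 0 < τ * ((d : ℝ) - 1) := mul_pos hτ (by linarith)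
  have hK0 : 0 < K := by linarith
  -- the constants
  obtain ⟨Q, hQ⟩ : ∃ Q : ℝ, Q = Real.log (d * 3 ^ (d - 1)) := ⟨_, rfl⟩
  have hQbase : (1 : ℝ) < d * 3 ^ (d - 1) := by
    have h4 : (1 : ℝ) ≤ 3 ^ (d - 1) := one_le_pow₀ (by norm_num)
    nlinarith
  have hQ0 : 0 < Q := by rw [hQ]; exact Real.log_pos hQbase
  obtain ⟨a₁, ha₁⟩ : ∃ a₁ : ℝ, a₁ = min 1 (η0 / (2 * Q)) := ⟨_, rfl⟩
  have ha₁0 : 0 < a₁ := by rw [ha₁]; exact lt_min one_pos (by positivity)
  have ha₁1 : a₁ ≤ 1 := by rw [ha₁]; exact min_le_left _ _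
  have ha₁Q : a₁ * Q ≤ η0 / 2 := by
    have h4 : a₁ ≤ η0 / (2 * Q) := by rw [ha₁]; exact min_le_right _ _
    calc a₁ * Q ≤ η0 / (2 * Q) * Q := mul_le_mul_of_nonneg_right h4 hQ0.le
      _ = η0 / 2 := by field_simp
  obtain ⟨η, hη⟩ : ∃ η : ℝ, η = min (η0 / 2) ((1 - g - τ * ((d : ℝ) - 1)) / (τ * K)) := ⟨_, rfl⟩
  have hη0' : 0 < η := by
    rw [hη]
    exact lt_min (by positivity) (div_pos (by linarith) (by positivity))
  have hηE : η ≤ η0 / 2 := by rw [hη]; exact min_le_left _ _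
  have hηE' : η ≤ η0 := by linarith
  have hηg : τ * ((d : ℝ) - 1) + τ * (η * K) ≤ 1 - g := by
    have h4 : η ≤ (1 - g - τ * ((d : ℝ) - 1)) / (τ * K) := by rw [hη]; exact min_le_right _ _
    rw [le_div_iff₀ (by positivity)] at h4
    nlinarith
  obtain ⟨κ2, hκ2⟩ : ∃ κ2 : ℝ, κ2 = k0 * (2 * δ₁) ^ a₁ := ⟨_, rfl⟩
  obtain ⟨κ3, hκ3⟩ : ∃ κ3 : ℝ, κ3 = k0 ^ 2 * Real.exp (-(η * K)) := ⟨_, rfl⟩
  have hκ20 : 0 < κ2 := by rw [hκ2]; positivity
  have hκ30 : 0 < κ3 := by rw [hκ3]; positivity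
  obtain ⟨κ, hκ⟩ : ∃ κ : ℝ, κ = min k0 (min κ2 κ3) := ⟨_, rfl⟩
  have hκ0 : 0 < κ := by rw [hκ]; exact lt_min hk0 (lt_min hκ20 hκ30)
  have hκk0 : κ ≤ k0 := by rw [hκ]; exact min_le_left _ _
  have hκκ2 : κ ≤ κ2 := by rw [hκ]; exact (min_le_right _ _).trans (min_le_left _ _)
  have hκκ3 : κ ≤ κ3 := by rw [hκ]; exact (min_le_right _ _).trans (min_le_right _ _)
  have hκ1' : κ ≤ 1 := hκk0.trans hk01
  obtain ⟨r₀, hr₀⟩ : ∃ r₀ : ℝ, r₀ = min rE ((k0 / 2) ^ (4 * d)) := ⟨_, rfl⟩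
  have hr₀0 : 0 < r₀ := by rw [hr₀]; exact lt_min hrE (by positivity)
  have hr₀E : r₀ ≤ rE := by rw [hr₀]; exact min_le_left _ _
  have hr₀k : r₀ ≤ (k0 / 2) ^ (4 * d) := by rw [hr₀]; exact min_le_right _ _
  refine ⟨κ, η, a₁, r₀, hκ0, hκ1', hη0', ha₁0, ha₁1, hr₀0, hr₀E.trans hrE4,
    fun c r y n hr hrr hc h4 hfar => ⟨?_, ?_⟩⟩
  · -- all times
    have hr1 : r ≤ 1 := by linarith
    have hexpn : Real.exp (η * n) ≤ Real.exp (η0 * n) :=
      Real.exp_le_exp.2 (mul_le_mul_of_nonneg_right hηE' (Nat.cast_nonneg _))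
    rcases hexp c r y n hr (hrr.trans hr₀E) hc h4 hfar with h5 | ⟨i, hi, b1, b2, b3, b4, -⟩
    · refine le_trans ?_ h5
      have h6 : r ^ (1 - g) ≤ 1 := Real.rpow_le_one hr.le hr1 (by linarith)
      calc κ * r ^ (1 - g) * Real.exp (η * n) ≤ k0 * 1 * Real.exp (η0 * n) := by
            gcongr
        _ = _ := by ring
    · refine le_trans ?_ b4
      obtain ⟨t, ht⟩ : ∃ t : ℝ, t = r ^ τ := ⟨_, rfl⟩
      have ht0 : 0 < t := by rw [ht]; positivity
      have hpi : t ≤ ‖(f d c)^[i] y‖ := by rw [ht]; exact hfar i hi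
      have hp0 : 0 < ‖(f d c)^[i] y‖ := ht0.trans_le hpi
      have hlog : Real.log (1 / ‖(f d c)^[i] y‖) ≤ Real.log (1 / t) :=
        Real.log_le_log (by positivity) (one_div_le_one_div_of_le ht0 hpi)
      have h6 : (n : ℝ) - i ≤ K * (1 + Real.log (1 / t)) := by
        refine b3.trans (mul_le_mul_of_nonneg_left (by linarith) (by linarith))
      have h7 : Real.exp (η * n) * (Real.exp (-(η * K)) * t ^ (η * K)) ≤
          Real.exp (η * i) := by
        rw [Real.rpow_def_of_pos ht0, ← Real.exp_add, ← Real.exp_add]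
        apply Real.exp_le_exp.2
        have e1 : Real.log (1 / t) = -Real.log t := by
          rw [one_div, Real.log_inv]
        rw [e1] at h6
        nlinarith
      have h8 : r ^ (1 - g) ≤ t ^ (d - 1) * t ^ (η * K) := by
        have e1 : t ^ (d - 1) = r ^ (τ * ((d : ℝ) - 1)) := by
          rw [ht, ← Real.rpow_natCast, ← Real.rpow_mul hr.le, Nat.cast_sub (by omega)]
          norm_num
        have e2 : t ^ (η * K) = r ^ (τ * (η * K)) := by
          rw [ht, ← Real.rpow_mul hr.le]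
        rw [e1, e2, ← Real.rpow_add hr]
        exact Real.rpow_le_rpow_of_exponent_ge hr hr1 hηg
      have h9 : t ^ (d - 1) ≤ ‖(f d c)^[i] y‖ ^ (d - 1) := pow_le_pow_left₀ ht0.le hpi _
      have h10 : Real.exp (η * i) ≤ Real.exp (η0 * i) :=
        Real.exp_le_exp.2 (mul_le_mul_of_nonneg_right hηE' (Nat.cast_nonneg _))
      calc κ * r ^ (1 - g) * Real.exp (η * n) ≤
            (k0 ^ 2 * Real.exp (-(η * K))) * (t ^ (d - 1) * t ^ (η * K)) * Real.exp (η * n) := by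
            rw [← hκ3]
            gcongr
        _ = k0 * t ^ (d - 1) * (k0 * (Real.exp (η * n) *
              (Real.exp (-(η * K)) * t ^ (η * K)))) := by ring
        _ ≤ k0 * ‖(f d c)^[i] y‖ ^ (d - 1) * (k0 * Real.exp (η0 * i)) := by
            have h11 := h7.trans h10
            gcongr
        _ ≤ k0 * ‖(f d c)^[i] y‖ ^ (d - 1) * ‖deriv ((f d c)^[i]) y‖ := by
            gcongr
  · -- a return near the critical point
    intro hn1 hret
    have hD : k0 * Real.exp (η0 * n) ≤ ‖deriv ((f d c)^[n]) y‖ := by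
      rcases hexp c r y n hr (hrr.trans hr₀E) hc h4 hfar with h5 | ⟨i, hi, -, -, -, -, b5⟩
      · exact h5
      · exact (no_pass2 hd hk0 hr (hrr.trans hr₀k) b5 hret).elim
    have hry : r ^ τ ≤ ‖y‖ := by simpa using hfar 0 (by omega)
    have hyp : 0 < ‖y‖ := lt_of_lt_of_le (Real.rpow_pos_of_pos hr τ) hry
    rcases le_or_gt ‖y‖ (2 * δ₁) with hyδ | hyδ
    · obtain ⟨k, hk2, hk3, hk4⟩ := hb c r y hr (hrr.trans hr₀E) hc hry hyδ
      have hkn : k + 1 ≤ n := by
        by_contra hcon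
        push Not at hcon
        obtain ⟨j, hj, hjk⟩ : ∃ j, n = j + 1 ∧ j < k := ⟨n - 1, by omega, by omega⟩
        have h5 := hk4 j hjk
        rw [← hj] at h5
        exact no_pass2 hd hk0 hr (hrr.trans hr₀k) h5 hret
      have hy1 : ‖y‖ ≤ 1 := by linarith
      have h6 : 1 ≤ ‖deriv ((f d c)^[k + 1]) y‖ := by
        refine le_trans ?_ hk2
        exact Real.one_le_exp (by positivity)
      have h7 : ‖deriv ((f d c)^[k + 1]) y‖ ≤
          ((d : ℝ) * 3 ^ (d - 1)) ^ k * (d * ‖y‖ ^ (d - 1)) := by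
        rw [chain, norm_mul, EXQaux.deriv_one]
        apply mul_le_mul_of_nonneg_right _ (by positivity)
        apply EXQaux.upper
        intro j hj
        rw [← Function.iterate_add_apply]
        exact hk3 j (by omega)
      have h8 : ‖y‖ ^ (d - 1) ≤ ‖y‖ := by
        calc ‖y‖ ^ (d - 1) ≤ ‖y‖ ^ 1 := pow_le_pow_of_le_one hyp.le hy1 (by omega)
          _ = ‖y‖ := pow_one _
      have h9 : 1 ≤ ((d : ℝ) * 3 ^ (d - 1)) ^ (k + 1) * ‖y‖ := by
        refine (h6.trans h7).trans ?_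
        rw [pow_succ, mul_assoc]
        apply mul_le_mul_of_nonneg_left _ (by positivity)
        apply mul_le_mul _ h8 (by positivity) (by positivity)
        exact le_mul_of_one_le_right hd0.le (one_le_pow₀ (by norm_num))
      have h11 : Real.log (1 / ‖y‖) ≤ Q * ((k + 1 : ℕ) : ℝ) := by
        have h12 : 1 / ‖y‖ ≤ ((d : ℝ) * 3 ^ (d - 1)) ^ (k + 1) := by
          rw [div_le_iff₀ hyp]
          exact h9
        have h13 := Real.log_le_log (by positivity) h12
        rw [Real.log_pow, ← hQ] at h13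
        linarith
      have h14 : ‖y‖ ^ (-a₁) ≤ Real.exp (η0 / 2 * n) := by
        rw [Real.rpow_def_of_pos hyp]
        apply Real.exp_le_exp.2
        have e1 : Real.log ‖y‖ = -Real.log (1 / ‖y‖) := by
          rw [one_div, Real.log_inv, neg_neg]
        rw [e1]
        calc -Real.log (1 / ‖y‖) * -a₁ = a₁ * Real.log (1 / ‖y‖) := by ring
          _ ≤ a₁ * (Q * ((k + 1 : ℕ) : ℝ)) := mul_le_mul_of_nonneg_left h11 ha₁0.le
          _ = a₁ * Q * ((k + 1 : ℕ) : ℝ) := by ring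
          _ ≤ η0 / 2 * ((k + 1 : ℕ) : ℝ) := mul_le_mul_of_nonneg_right ha₁Q (Nat.cast_nonneg _)
          _ ≤ η0 / 2 * n := by
              apply mul_le_mul_of_nonneg_left _ (by positivity)
              exact_mod_cast hkn
      refine le_trans ?_ hD
      calc κ * Real.exp (η * n) * ‖y‖ ^ (-a₁) ≤
            k0 * Real.exp (η0 / 2 * n) * Real.exp (η0 / 2 * n) := by
            apply mul_le_mul _ h14 (by positivity) (by positivity)
            apply mul_le_mul hκk0 _ (Real.exp_pos _).le hk0.le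
            exact Real.exp_le_exp.2 (mul_le_mul_of_nonneg_right hηE (Nat.cast_nonneg _))
        _ = k0 * Real.exp (η0 * n) := by
            rw [mul_assoc, ← Real.exp_add]
            congr 2
            ring
    · have h5 : ‖y‖ ^ (-a₁) ≤ ((2 * δ₁) ^ a₁)⁻¹ := by
        rw [Real.rpow_neg hyp.le]
        apply inv_anti₀ (by positivity)
        exact Real.rpow_le_rpow (by positivity) hyδ.le ha₁0.le
      refine le_trans ?_ hD
      have h6 : (0 : ℝ) < (2 * δ₁) ^ a₁ := by positivity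
      calc κ * Real.exp (η * n) * ‖y‖ ^ (-a₁) ≤
            (k0 * (2 * δ₁) ^ a₁) * Real.exp (η0 * n) * ((2 * δ₁) ^ a₁)⁻¹ := by
            rw [← hκ2]
            apply mul_le_mul _ h5 (by positivity) (by positivity)
            apply mul_le_mul hκκ2 _ (Real.exp_pos _).le hκ20.le
            exact Real.exp_le_exp.2 (mul_le_mul_of_nonneg_right hηE' (Nat.cast_nonneg _))
        _ = k0 * Real.exp (η0 * n) := by
            field_simp

end Pool.Agent.N253.EC
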