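import Pool.Agent.N253.EC.Stm
import Pool.Agent.N253.SM.Exp

/-!
# Expansion by blocks, for orbits which come nearer the critical point (project EC of helper253;
by helper80, after the file of helper821)
-/

set_option autoImplicit false

open Set Filter Metric Topology

namespace Pool.Agent.N253.EC

open Pool.Agent.TH279.MD Pool.Agent.Y298.SH Pool.Agent.Y298.SH.CD Pool.Agent.Y298.CA
open Pool.Agent.N253.LC
open Pool.Agent.N253.SM.EXPaux (diff_f chain)

namespace EXP2aux

lemma first_step (d : ℕ) (c y : ℂ) (j : ℕ) :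
    ‖deriv ((f d c)^[j + 1]) y‖ = ‖deriv ((f d c)^[j]) (y ^ d + c)‖ * (d * ‖y‖ ^ (d - 1)) := by
  rw [chain, Function.iterate_one, deriv_f, norm_mul, norm_mul, norm_pow, Complex.norm_natCast]
  rfl

/-- The passages. -/
lemma passage (h2 : S_BND2) (h3 : S_PASS) {d : ℕ} {χ : ℝ} {c₀ : ℂ} (hd : 2 ≤ d)
    (hL : Lyap d χ c₀) {τ : ℝ} (hτ : 0 < τ) (hτd : τ * ((d : ℝ) - 1) < 1) :
    ∃ κ η K : ℝ, 0 < κ ∧ 0 < η ∧ 1 ≤ K ∧ ∀ Γ : ℝ, 1 ≤ Γ → ∃ δ₁ r₀ : ℝ, 0 < δ₁ ∧ δ₁ ≤ 1 / 4 ∧
    0 < r₀ ∧ r₀ ≤ 1 / 4 ∧ ∀ (c : ℂ) (r : ℝ) (y : ℂ), 0 < r → r ≤ r₀ → ‖c - c₀‖ ≤ r →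
    r ^ τ ≤ ‖y‖ → ‖y‖ ≤ 2 * δ₁ → ∃ k : ℕ, ((k : ℝ) + 1 ≤ K * (1 + Real.log (1 / ‖y‖))) ∧
      Γ * Real.exp (η * (k + 1 : ℕ)) ≤ ‖deriv ((f d c)^[k + 1]) y‖ ∧
      (∀ j ≤ k, ‖(f d c)^[j + 1] y‖ ≤ 3) ∧
      ∀ j < k, κ * ‖y‖ ^ (d - 1) ≤ ‖deriv ((f d c)^[j + 1]) y‖ ∧
        κ * r ^ (1 / (2 * (d : ℝ))) ≤ ‖(f d c)^[j + 1] y‖ := by
  have hdR : (2 : ℝ) ≤ d := by exact_mod_cast hd
  have hd0 : (0 : ℝ) < d := by linarith
  have hχ : 0 < χ := hL.1
  obtain ⟨g, hg⟩ : ∃ g : ℝ, g = 1 - τ * ((d : ℝ) - 1) := ⟨_, rfl⟩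
  have hg0 : 0 < g := by rw [hg]; linarith
  obtain ⟨ε, hε⟩ : ∃ ε : ℝ, ε = min (g / 16) (min (1 / (2 * (d : ℝ))) (1 / 4)) := ⟨_, rfl⟩
  have hε0 : 0 < ε := by rw [hε]; exact lt_min (by positivity) (lt_min (by positivity) (by norm_num))
  have hεg : ε ≤ g / 16 := by rw [hε]; exact min_le_left _ _
  have hεd : ε ≤ 1 / (2 * (d : ℝ)) := by rw [hε]; exact (min_le_right _ _).trans (min_le_left _ _)
  have hε4 : ε ≤ 1 / 4 := by rw [hε]; exact (min_le_right _ _).trans (min_le_right _ _)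
  obtain ⟨κB, ηB, KB, hκB, hηB, hKB, hbnd⟩ := h2 d χ c₀ hd hL
  obtain ⟨C, κP, rP, hC, hκP, hκP1, hrP, hrP4, hpass⟩ := h3 d χ c₀ hd hL ε hε0 (by linarith)
  obtain ⟨η, hη⟩ : ∃ η : ℝ, η = min ηB (g * χ / 4) := ⟨_, rfl⟩
  have hη0 : 0 < η := by rw [hη]; exact lt_min hηB (by positivity)
  have hηB' : η ≤ ηB := by rw [hη]; exact min_le_left _ _
  have hηg : η ≤ g * χ / 4 := by rw [hη]; exact min_le_right _ _
  obtain ⟨K, hK⟩ : ∃ K : ℝ, K = max KB (1 + (C + d) / χ) := ⟨_, rfl⟩
  have hKB' : KB ≤ K := by rw [hK]; exact le_max_left _ _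
  have hKχ : 1 + (C + d) / χ ≤ K := by rw [hK]; exact le_max_right _ _
  refine ⟨min κB κP, η, K, lt_min hκB hκP, hη0, hKB.trans hKB', fun Γ hΓ => ?_⟩
  have hΓ0 : 0 < Γ := by linarith
  obtain ⟨δ₁, hδ₁, hδ₁4, hb⟩ := hbnd Γ hΓ
  obtain ⟨Q, hQ⟩ : ∃ Q : ℝ, Q = Real.log Γ + η * (1 + C / χ) := ⟨_, rfl⟩
  have hQ0 : 0 ≤ Q := by
    rw [hQ]
    have := Real.log_nonneg hΓ
    positivity
  refine ⟨δ₁, min (min (1 / 4) rP) (Real.exp (-(2 / g * Q))), hδ₁, hδ₁4,
    lt_min (lt_min (by norm_num) hrP) (Real.exp_pos _),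
    (min_le_left _ _).trans (min_le_left _ _), fun c r y hr hr0 hc hyr hy => ?_⟩
  have hr4 : r ≤ 1 / 4 := (hr0.trans (min_le_left _ _)).trans (min_le_left _ _)
  have hrrP : r ≤ rP := (hr0.trans (min_le_left _ _)).trans (min_le_right _ _)
  have hrQ : r ≤ Real.exp (-(2 / g * Q)) := hr0.trans (min_le_right _ _)
  have hr1 : r ≤ 1 := by linarith
  have hy0 : 0 < ‖y‖ := (Real.rpow_pos_of_pos hr τ).trans_le hyr
  have hy1 : ‖y‖ ≤ 1 := by linarith
  have hyne : y ≠ 0 := norm_pos_iff.1 hy0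
  have hlogy : 0 ≤ Real.log (1 / ‖y‖) := Real.log_nonneg (by rw [le_div_iff₀ hy0]; linarith)
  rcases le_or_gt r (‖y‖ ^ d) with hcase | hcase
  · obtain ⟨k, q1, q2, q3, q4⟩ := hb c y hyne hy (hc.trans hcase)
    refine ⟨k, ?_, ?_, q3, fun j hj => ⟨?_, ?_⟩⟩
    · exact q1.trans (mul_le_mul_of_nonneg_right hKB' (by linarith))
    · refine le_trans (mul_le_mul_of_nonneg_left (Real.exp_le_exp.2 ?_) hΓ0.le) q2
      exact mul_le_mul_of_nonneg_right hηB' (Nat.cast_nonneg _)
    · exact (mul_le_mul_of_nonneg_right (min_le_left _ _) (by positivity)).trans (q4 j hj).1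
    · have e1 : r ^ (1 / (d : ℝ)) ≤ ‖y‖ := by
        calc r ^ (1 / (d : ℝ)) ≤ (‖y‖ ^ d) ^ (1 / (d : ℝ)) :=
              Real.rpow_le_rpow hr.le hcase (by positivity)
          _ = ‖y‖ := by
              rw [← Real.rpow_natCast, ← Real.rpow_mul hy0.le, mul_one_div_cancel hd0.ne', Real.rpow_one]
      have e2 : r ^ (1 / (2 * (d : ℝ))) ≤ Real.sqrt ‖y‖ := by
        rw [Real.sqrt_eq_rpow]
        calc r ^ (1 / (2 * (d : ℝ))) = (r ^ (1 / (d : ℝ))) ^ (1 / 2 : ℝ) := by
              rw [← Real.rpow_mul hr.le]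
              congr 1
              field_simp
          _ ≤ ‖y‖ ^ (1 / 2 : ℝ) := Real.rpow_le_rpow (by positivity) e1 (by norm_num)
      exact (mul_le_mul (min_le_left _ _) e2 (by positivity) hκB.le).trans (q4 j hj).2
  · obtain ⟨n, hn, hn1, -⟩ := hpass r hr hrrP
    obtain ⟨p1, p2, p3⟩ := hn1 c (y ^ d + c) hc (by
      rw [add_sub_cancel_right, norm_pow]; exact hcase.le)
    have hit : ∀ j, (f d c)^[j + 1] y = (f d c)^[j] (y ^ d + c) := fun j =>
      Function.iterate_succ_apply _ _ _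
    -- the logarithms
    obtain ⟨L, hLdef⟩ : ∃ L : ℝ, L = Real.log (1 / r) := ⟨_, rfl⟩
    have hLr : Real.log r = -L := by rw [hLdef, one_div, Real.log_inv, neg_neg]
    have hL0 : 0 ≤ L := by
      rw [hLdef]
      exact Real.log_nonneg (by rw [le_div_iff₀ hr]; linarith)
    have hLQ : Q ≤ g / 2 * L := by
      have e1 : Real.log r ≤ -(2 / g * Q) := by
        have := Real.log_le_log hr hrQ
        rwa [Real.log_exp] at this
      rw [hLr] at e1
      have e2 : 2 / g * Q ≤ L := by linarith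
      have e3 : g / 2 * (2 / g * Q) = Q := by field_simp
      rw [← e3]
      exact mul_le_mul_of_nonneg_left e2 (by positivity)
    have hnχ : (n : ℝ) * χ ≤ L + C := by
      rw [← hLdef] at hn
      have e1 := (abs_le.1 hn).2
      have e2 : 0 ≤ ε * L := by positivity
      linarith
    have hn' : (n : ℝ) ≤ (L + C) / χ := by rw [le_div_iff₀ hχ]; exact hnχ
    have hLy : L ≤ d * Real.log (1 / ‖y‖) := by
      have e1 := Real.log_le_log (pow_pos hy0 d) hcase.le
      rw [Real.log_pow, hLr] at e1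
      rw [one_div, Real.log_inv]
      linarith
    have hDp : ∀ j, ‖deriv ((f d c)^[j]) (y ^ d + c)‖ * (‖y‖ ^ (d - 1)) ≤
        ‖deriv ((f d c)^[j + 1]) y‖ := by
      intro j
      rw [first_step]
      refine mul_le_mul_of_nonneg_left ?_ (norm_nonneg _)
      have : 0 ≤ ‖y‖ ^ (d - 1) := by positivity
      nlinarith
    refine ⟨n, ?_, ?_, ?_, fun j hj => ⟨?_, ?_⟩⟩
    · calc (n : ℝ) + 1 ≤ (L + C) / χ + 1 := by linarith
        _ ≤ (d * Real.log (1 / ‖y‖) + C) / χ + 1 := by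
            have := div_le_div_of_nonneg_right (add_le_add_left hLy C) hχ.le
            linarith
        _ ≤ (1 + (C + d) / χ) * (1 + Real.log (1 / ‖y‖)) := by
            have e1 : (1 + (C + d) / χ) * (1 + Real.log (1 / ‖y‖)) -
                ((d * Real.log (1 / ‖y‖) + C) / χ + 1) =
                Real.log (1 / ‖y‖) + d / χ + C / χ * Real.log (1 / ‖y‖) := by
              field_simp
              ring
            have e2 : 0 ≤ Real.log (1 / ‖y‖) + d / χ + C / χ * Real.log (1 / ‖y‖) := by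
              have : 0 ≤ C / χ := by positivity
              positivity
            linarith
        _ ≤ K * (1 + Real.log (1 / ‖y‖)) := mul_le_mul_of_nonneg_right hKχ (by linarith)
    · refine le_trans ?_ (hDp n)
      have e1 : r ^ (2 * ε - 1) * (r ^ τ) ^ (d - 1) ≤
          ‖deriv ((f d c)^[n]) (y ^ d + c)‖ * (‖y‖ ^ (d - 1)) :=
        mul_le_mul p3 (pow_le_pow_left₀ (by positivity) hyr _) (by positivity) (norm_nonneg _)
      refine le_trans ?_ e1
      have e2 : r ^ (2 * ε - 1) * (r ^ τ) ^ (d - 1) = Real.exp ((g - 2 * ε) * L) := by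
        rw [← Real.rpow_natCast, ← Real.rpow_mul hr.le, ← Real.rpow_add hr, Real.rpow_def_of_pos hr,
          hLr, Nat.cast_sub (by omega), Nat.cast_one, hg]
        congr 1
        ring
      rw [e2]
      have e3 : Γ * Real.exp (η * ((n + 1 : ℕ) : ℝ)) = Real.exp (Real.log Γ + η * ((n + 1 : ℕ) : ℝ)) := by
        rw [Real.exp_add, Real.exp_log hΓ0]
      rw [e3]
      refine Real.exp_le_exp.2 ?_
      push_cast
      have e4 : η * ((n : ℝ) + 1) ≤ η * (1 + C / χ) + g / 4 * L := by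
        have e5 : η * ((n : ℝ) + 1) ≤ η * ((L + C) / χ + 1) :=
          mul_le_mul_of_nonneg_left (by linarith) hη0.le
        have e6 : η * ((L + C) / χ + 1) = η * (1 + C / χ) + η * (L / χ) := by ring
        have e7 : η * (L / χ) ≤ (g * χ / 4) * (L / χ) := mul_le_mul_of_nonneg_right hηg (by positivity)
        have e8 : (g * χ / 4) * (L / χ) = g / 4 * L := by field_simp
        linarith
      have e9 : ε * L ≤ g / 16 * L := mul_le_mul_of_nonneg_right hεg hL0
      have e10 : 0 ≤ g * L := by positivity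
      rw [hQ] at hLQ
      linarith
    · intro j hj
      rw [hit]
      exact (p1 j hj).1
    · refine le_trans ?_ (hDp j)
      refine mul_le_mul_of_nonneg_right ?_ (by positivity)
      exact (min_le_right _ _).trans (p1 j hj.le).2
    · rw [hit]
      refine le_trans ?_ (p2 j hj)
      refine mul_le_mul (min_le_right _ _) ?_ (by positivity) hκP.le
      exact Real.rpow_le_rpow_of_exponent_ge hr hr1 hεd

end EXP2aux

open EXP2aux

theorem t_EXP2 (h1 : Pool.Agent.N253.SM.S_FREE) (h2 : S_BND2) (h3 : S_PASS) : S_EXP2 := by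
  classical
  intro d χ c₀ hd hL τ hτ hτd
  obtain ⟨ρ₀, Γ, hρ₀, hΓ, hfree⟩ := h1 d χ c₀ hd hL
  obtain ⟨κB, ηB, K, hκB, hηB, hK, hbnd⟩ := passage h2 h3 hd hL hτ hτd
  obtain ⟨δ₁, rB, hδ₁, hδ₁4, hrB, hrB4, hb⟩ := hbnd Γ hΓ
  obtain ⟨κF, ηF, e, hκF, hηF, he, hf⟩ := hfree (min ρ₀ δ₁) (lt_min hρ₀ hδ₁) (min_le_left _ _)
  have hΓ0 : 0 < Γ := by linarith
  set δ : ℝ := min ρ₀ δ₁ with hδ
  have hδδ₁ : δ ≤ δ₁ := min_le_right _ _
  set η : ℝ := min ηF ηB with hη
  have hη0 : 0 < η := lt_min hηF hηB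
  have hηF' : η ≤ ηF := min_le_left _ _
  have hηB' : η ≤ ηB := min_le_right _ _
  set κ : ℝ := min 1 (min κF (min (1 / Γ) κB)) with hκ
  have hκ0 : 0 < κ := lt_min one_pos (lt_min hκF (lt_min (by positivity) hκB))
  have hκ1 : κ ≤ 1 := min_le_left _ _
  have hκF' : κ ≤ κF := (min_le_right _ _).trans (min_le_left _ _)
  have hκΓ : κ ≤ 1 / Γ := ((min_le_right _ _).trans (min_le_right _ _)).trans (min_le_left _ _)
  have hκB' : κ ≤ κB := ((min_le_right _ _).trans (min_le_right _ _)).trans (min_le_right _ _)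
  refine ⟨κ, η, K, min e rB, hκ0, hκ1, hη0, hK, lt_min he hrB, (min_le_right _ _).trans hrB4,
    ?_, δ₁, hδ₁, hδ₁4, ?_⟩
  · intro c r y n hr hre hc
    have hce : ‖c - c₀‖ ≤ e := hc.trans (hre.trans (min_le_left _ _))
    have hrrB : r ≤ rB := hre.trans (min_le_right _ _)
    induction n using Nat.strong_induction_on generalizing y with
    | _ n ih =>
      intro h4 hfar
      by_cases hcase : ∀ j < n, 2 * δ ≤ ‖(f d c)^[j] y‖
      · left
        obtain ⟨g1, -⟩ := hf c hce y n hcase h4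
        refine le_trans ?_ g1
        have : Real.exp (η * n) ≤ Real.exp (ηF * n) :=
          Real.exp_le_exp.2 (mul_le_mul_of_nonneg_right hηF' (Nat.cast_nonneg _))
        exact mul_le_mul hκF' this (Real.exp_pos _).le hκF.le
      · push Not at hcase
        obtain ⟨m, ⟨hmn, hmδ⟩, hmin⟩ : ∃ m, (m < n ∧ ‖(f d c)^[m] y‖ < 2 * δ) ∧
            ∀ j < m, 2 * δ ≤ ‖(f d c)^[j] y‖ := by
          refine ⟨Nat.find hcase, Nat.find_spec hcase, fun j hj => ?_⟩
          have h5 := Nat.find_min hcase hj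
          by_contra hcon
          push Not at hcon
          exact h5 ⟨hj.trans (Nat.find_spec hcase).1, hcon⟩
        set p : ℂ := (f d c)^[m] y with hp
        have hDm : Real.exp (η * m) ≤ Γ * ‖deriv ((f d c)^[m]) y‖ := by
          obtain ⟨-, g2⟩ := hf c hce y m hmin (fun j hj => h4 j (by omega))
          refine le_trans (Real.exp_le_exp.2 ?_) (g2 hmδ.le)
          exact mul_le_mul_of_nonneg_right hηF' (Nat.cast_nonneg _)
        have hrp : r ^ τ ≤ ‖p‖ := hfar m hmn
        have hp2 : ‖p‖ ≤ 2 * δ₁ := by linarith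
        obtain ⟨k, hk1, hk2, -, hk3⟩ := hb c r p hr hrrB hc hrp hp2
        rcases le_or_gt n (m + k) with hn | hn
        · right
          obtain ⟨j, hj, hjk⟩ : ∃ j, n = (j + 1) + m ∧ j < k := ⟨n - m - 1, by omega, by omega⟩
          obtain ⟨q1, q2⟩ := hk3 j hjk
          refine ⟨m, hmn, ?_, by linarith, ?_, ?_, ?_⟩
          · calc κ * Real.exp (η * m) ≤ 1 / Γ * (Γ * ‖deriv ((f d c)^[m]) y‖) :=
                  mul_le_mul hκΓ hDm (Real.exp_pos _).le (by positivity)
              _ = ‖deriv ((f d c)^[m]) y‖ := by field_simp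
          · refine le_trans ?_ hk1
            have h6 : (n : ℝ) = (j : ℝ) + 1 + m := by rw [hj]; push_cast; ring
            have h7 : (j : ℝ) ≤ k := by exact_mod_cast hjk.le
            rw [h6]
            linarith
          · rw [hj, chain, norm_mul, ← hp]
            refine mul_le_mul_of_nonneg_right (le_trans ?_ q1) (norm_nonneg _)
            exact mul_le_mul_of_nonneg_right hκB' (by positivity)
          · rw [hj, Function.iterate_add_apply, ← hp]
            refine le_trans ?_ q2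
            exact mul_le_mul_of_nonneg_right hκB' (by positivity)
        · -- a free block and a bound block
          set g : ℕ := (k + 1) + m with hg
          have hgn : g ≤ n := by omega
          have hDg : Real.exp (η * g) ≤ ‖deriv ((f d c)^[g]) y‖ := by
            rw [hg, chain, norm_mul, ← hp]
            have e1 : Real.exp (η * ((k + 1 + m : ℕ) : ℝ)) =
                Real.exp (η * ((k + 1 : ℕ) : ℝ)) * Real.exp (η * m) := by
              rw [← Real.exp_add]
              congr 1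
              push_cast
              ring
            have e2 : Real.exp (η * ((k + 1 : ℕ) : ℝ)) ≤ Real.exp (ηB * ((k + 1 : ℕ) : ℝ)) :=
              Real.exp_le_exp.2 (mul_le_mul_of_nonneg_right hηB' (Nat.cast_nonneg _))
            rw [e1]
            calc Real.exp (η * ((k + 1 : ℕ) : ℝ)) * Real.exp (η * m)
                ≤ Real.exp (ηB * ((k + 1 : ℕ) : ℝ)) * (Γ * ‖deriv ((f d c)^[m]) y‖) :=
                  mul_le_mul e2 hDm (Real.exp_pos _).le (Real.exp_pos _).le
              _ = Γ * Real.exp (ηB * ((k + 1 : ℕ) : ℝ)) * ‖deriv ((f d c)^[m]) y‖ := by ring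
              _ ≤ _ := mul_le_mul_of_nonneg_right hk2 (norm_nonneg _)
          obtain ⟨n', hn'⟩ : ∃ n', n = n' + g := ⟨n - g, by omega⟩
          have hn'n : n' < n := by omega
          have hit : ∀ j, (f d c)^[j] ((f d c)^[g] y) = (f d c)^[j + g] y := fun j =>
            (Function.iterate_add_apply _ _ _ _).symm
          have hD : ∀ j, ‖deriv ((f d c)^[j]) ((f d c)^[g] y)‖ * ‖deriv ((f d c)^[g]) y‖ =
              ‖deriv ((f d c)^[j + g]) y‖ := fun j => by
            rw [chain d c y j g, norm_mul]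
          have hexp : ∀ j : ℕ, Real.exp (η * ((j + g : ℕ) : ℝ)) =
              Real.exp (η * j) * Real.exp (η * g) := fun j => by
            rw [← Real.exp_add]
            congr 1
            push_cast
            ring
          rcases ih n' hn'n ((f d c)^[g] y) (fun j hj => by rw [hit]; exact h4 _ (by omega))
            (fun j hj => by rw [hit]; exact hfar _ (by omega)) with hA | ⟨i, hi, b1, b2, b3, b4, b5⟩
          · left
            rw [hn', hexp, ← hD]
            calc κ * (Real.exp (η * n') * Real.exp (η * g))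
                = κ * Real.exp (η * n') * Real.exp (η * g) := by ring
              _ ≤ _ := mul_le_mul hA hDg (Real.exp_pos _).le (norm_nonneg _)
          · right
            simp only [hit] at b2 b3 b4 b5
            refine ⟨i + g, by omega, ?_, b2, ?_, ?_, ?_⟩
            · rw [hexp, ← hD]
              calc κ * (Real.exp (η * i) * Real.exp (η * g))
                  = κ * Real.exp (η * i) * Real.exp (η * g) := by ring
                _ ≤ _ := mul_le_mul b1 hDg (Real.exp_pos _).le (norm_nonneg _)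
            · refine le_trans (le_of_eq ?_) b3
              rw [hn']
              push_cast
              ring
            · rw [hn', ← hD, ← hD]
              calc κ * ‖(f d c)^[i + g] y‖ ^ (d - 1) *
                    (‖deriv ((f d c)^[i]) ((f d c)^[g] y)‖ * ‖deriv ((f d c)^[g]) y‖)
                  = κ * ‖(f d c)^[i + g] y‖ ^ (d - 1) * ‖deriv ((f d c)^[i]) ((f d c)^[g] y)‖ *
                    ‖deriv ((f d c)^[g]) y‖ := by ring
                _ ≤ _ := mul_le_mul_of_nonneg_right b4 (norm_nonneg _)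
            · rw [hn']
              exact b5
  · intro c r y hr hre hc hyr hy
    obtain ⟨k, -, hk2, hk3, hk4⟩ := hb c r y hr (hre.trans (min_le_right _ _)) hc hyr hy
    refine ⟨k, ?_, hk3, fun j hj => ?_⟩
    · refine le_trans ?_ hk2
      have e1 : Real.exp (η * ((k + 1 : ℕ) : ℝ)) ≤ Real.exp (ηB * ((k + 1 : ℕ) : ℝ)) :=
        Real.exp_le_exp.2 (mul_le_mul_of_nonneg_right hηB' (Nat.cast_nonneg _))
      refine e1.trans ?_
      have e2 := Real.exp_pos (ηB * ((k + 1 : ℕ) : ℝ))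
      nlinarith
    · refine le_trans ?_ (hk4 j hj).2
      exact mul_le_mul_of_nonneg_right hκB' (by positivity)

end Pool.Agent.N253.EC
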