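import Mathlib
import Pool.Agent.N253.EC.Stm
import Pool.Agent.N253.LC.Shad

/-!
# Shadowing at the scale `σ` with intermediate bounds (S_PASS)

Project EC (helper253); this file by helper764. The proof is that of `S_SHAD`
(Pool/Agent/N253/LC/Shad.lean, helper139) with a few more conclusions for the same time `n`.
-/

set_option autoImplicit false

open Set Filter Metric Topology

namespace Pool.Agent.N253.EC

open Pool.Agent.TH279.MD Pool.Agent.Y298.SH Pool.Agent.Y298.SH.CD Pool.Agent.Y298.CA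
open Pool.Agent.N253.LC
open Pool.Agent.N253.LC.Shad_
open Pool.Agent.H712R2 (P)

theorem t_PASS : S_PASS := by
  intro d χ c₀ hd hLy ε hε0 hε1
  have hχ : 0 < χ := hLy.1
  obtain ⟨⟨C₁, lam, hCE⟩, hly⟩ := Pool.Agent.Y674.CA.lya d χ c₀ hd hLy
  obtain ⟨e, he⟩ : ∃ e : ℝ, e = ε * χ / 100 := ⟨_, rfl⟩
  have he0 : 0 < e := by rw [he]; positivity
  have heχ : e ≤ χ / 200 := by rw [he]; nlinarith
  obtain ⟨C, hC1, hC⟩ := hly e he0
  have hθ : 1 < Real.exp e := Real.one_lt_exp_iff.mpr he0
  obtain ⟨B, Ca, hPC⟩ := Pool.Agent.Y434.CA.pa d C₁ lam (Real.exp e) hd hCE.C1 hCE.lam1 hθ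
  obtain ⟨κ, εg, J, hκ, hεg, hg⟩ := hCE.grow
  have hCa1 := hPC.Ca1
  have hB1 : 1 ≤ B := hPC.Ca1.trans hPC.CaB
  set S : ℝ := 8 + 64 * Ca + 64 * Ca / κ with hS
  have hS0 : 0 < 64 * Ca / κ := by positivity
  have hS8 : 8 ≤ S := by linarith
  have hS1 : 16 * Ca / S ≤ 1 / 4 := by
    rw [div_le_iff₀ (by linarith)]
    linarith
  have hS2 : 16 * Ca / S ≤ κ / 4 := by
    rw [div_le_iff₀ (by linarith)]
    have h3 : κ / 4 * (64 * Ca / κ) = 16 * Ca := by
      field_simp
      ring
    have h4 : κ / 4 * S = κ / 4 * (8 + 64 * Ca) + κ / 4 * (64 * Ca / κ) := by rw [hS]; ring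
    rw [h4, h3]
    have : 0 ≤ κ / 4 * (8 + 64 * Ca) := by positivity
    linarith
  -- the big constant
  set K : ℝ := B * S * C ^ 2 + Ca * S * C + C * Real.exp χ * (4 + 2 / κ) with hK
  have p1 : 0 ≤ B * S * C ^ 2 := by positivity
  have p2 : 0 ≤ Ca * S * C := by positivity
  have p6 : 0 < C * Real.exp χ * (4 + 2 / κ) := by positivity
  have hK1 : B * S * C ^ 2 ≤ K := by rw [hK]; linarith
  have hK2 : Ca * S * C ≤ K := by rw [hK]; linarith
  have hK6 : C * Real.exp χ * (4 + 2 / κ) ≤ K := by rw [hK]; linarith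
  have hK0 : 0 < K := by linarith
  -- the scale
  set X₀ : ℝ := max (max 0 (Real.log K * (10 / ε))) (max (Real.log 4) ((J + 1) * (2 * χ)))
    with hX₀
  have hlog4 : Real.log 4 ≤ X₀ := (le_max_left _ _).trans (le_max_right _ _)
  have hC₁1 := hCE.C1
  have hCp : 0 < C := by linarith
  have hC₁p : 0 < C₁ := by linarith
  refine ⟨1 + χ, min (1 / (2 * C₁)) (3 / (4 * C)), Real.exp (-X₀), by linarith,
    lt_min (by positivity) (by positivity), (min_le_right _ _).trans ?_, Real.exp_pos _, ?_, ?_⟩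
  · rw [div_le_one (by positivity)]
    linarith
  · have h3 : Real.exp (-X₀) ≤ Real.exp (-Real.log 4) := by
      rw [Real.exp_le_exp]
      linarith
    rw [Real.exp_neg, Real.exp_neg, Real.exp_log (by norm_num)] at h3
    rw [Real.exp_neg]
    linarith
  intro r hr0 hrX
  obtain ⟨X, hX⟩ : ∃ X : ℝ, X = -Real.log r := ⟨_, rfl⟩
  have hrexp : r = Real.exp (-X) := by rw [hX, neg_neg, Real.exp_log hr0]
  have hXX : X₀ ≤ X := by
    rw [hrexp, Real.exp_le_exp] at hrX
    linarith
  have hX0 : 0 ≤ X := ((le_max_left _ _).trans (le_max_left _ _)).trans hXX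
  have hXK : K ≤ Real.exp (ε / 10 * X) := by
    have h3 : Real.log K * (10 / ε) ≤ X := ((le_max_right _ _).trans (le_max_left _ _)).trans hXX
    rw [← Real.log_le_iff_le_exp hK0]
    rw [mul_div_assoc', div_le_iff₀ hε0] at h3
    linarith
  have hXJ : (J + 1) * (2 * χ) ≤ X := ((le_max_right _ _).trans (le_max_right _ _)).trans hXX
  have hrpow : ∀ y : ℝ, r ^ y = Real.exp (-X * y) := fun y => by
    rw [Real.rpow_def_of_pos hr0, hX, neg_neg]
  -- monotonicity for exponentials of X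
  have hsmall : ∀ (A a : ℝ), A ≤ K → ε / 10 ≤ a → A * Real.exp (-(a * X)) ≤ 1 := by
    intro A a hA ha
    have h3 : Real.exp (-(a * X)) ≤ Real.exp (-(ε / 10 * X)) := by
      rw [Real.exp_le_exp]
      linarith [mul_le_mul_of_nonneg_right ha hX0]
    calc A * Real.exp (-(a * X)) ≤ K * Real.exp (-(a * X)) := by gcongr
      _ ≤ K * Real.exp (-(ε / 10 * X)) := by gcongr
      _ ≤ Real.exp (ε / 10 * X) * Real.exp (-(ε / 10 * X)) := by gcongr
      _ = 1 := by rw [← Real.exp_add, add_neg_cancel, Real.exp_zero]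
  -- the time
  set n : ℕ := ⌊(1 - ε) * X / χ⌋₊ with hn
  have hn1 : (n : ℝ) * χ ≤ (1 - ε) * X := by
    have h3 : (n : ℝ) ≤ (1 - ε) * X / χ :=
      Nat.floor_le (div_nonneg (mul_nonneg (by linarith) hX0) hχ.le)
    rwa [le_div_iff₀ hχ] at h3
  have hn2 : (1 - ε) * X ≤ ((n : ℝ) + 1) * χ := by
    have h3 := (Nat.lt_floor_add_one ((1 - ε) * X / χ)).le
    rwa [div_le_iff₀ hχ] at h3
  have hJn : J ≤ n := by
    apply Nat.le_floor
    rw [le_div_iff₀ hχ]
    have h3 : X / 2 ≤ (1 - ε) * X := by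
      have := mul_le_mul_of_nonneg_right (show (1 : ℝ) / 2 ≤ 1 - ε by linarith) hX0
      linarith
    linarith
  have hn3 : (χ + 3 * e) * n ≤ (1 - ε / 2) * X := by
    have h3 : (χ + 3 * e) * n = (1 + 3 * ε / 100) * (n * χ) := by rw [he]; ring
    have h4 : (1 + 3 * ε / 100) * (1 - ε) ≤ 1 - ε / 2 := by nlinarith
    calc (χ + 3 * e) * n = (1 + 3 * ε / 100) * (n * χ) := h3
      _ ≤ (1 + 3 * ε / 100) * ((1 - ε) * X) := by gcongr
      _ = ((1 + 3 * ε / 100) * (1 - ε)) * X := by ring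
      _ ≤ (1 - ε / 2) * X := by gcongr
  -- the passage condition
  have hpassn : ∀ j < n, B * Real.exp e ^ j * (S * r) * Pd d c₀ j ≤ ‖zz d c₀ j‖ := by
    intro j hj
    have h3 := (hC j).2.1
    have h4 := (hC j).2.2
    have hjm : (j : ℝ) ≤ n := by exact_mod_cast hj.le
    have e1 : Real.exp e ^ j = Real.exp (e * j) := by rw [← Real.exp_nat_mul]; congr 1; ring
    have hCpos : 0 < C := by linarith
    have hm : B * C ^ 2 * (S * r) * Real.exp ((χ + 3 * e) * n) ≤ 1 := by
      have h3 : Real.exp ((χ + 3 * e) * n) ≤ Real.exp ((1 - ε / 2) * X) := by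
        rw [Real.exp_le_exp]; linarith
      calc B * C ^ 2 * (S * r) * Real.exp ((χ + 3 * e) * n)
          ≤ B * C ^ 2 * (S * r) * Real.exp ((1 - ε / 2) * X) := by gcongr
        _ = B * S * C ^ 2 * Real.exp (-(ε / 2 * X)) := by
            rw [hrexp]
            have : Real.exp (-(ε / 2 * X)) = Real.exp (-X) * Real.exp ((1 - ε / 2) * X) := by
              rw [← Real.exp_add]; congr 1; ring
            rw [this]; ring
        _ ≤ 1 := hsmall _ _ hK1 (by linarith)
    have h5 : B * Real.exp e ^ j * (S * r) * Pd d c₀ j * (C * Real.exp (e * j)) ≤ 1 := by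
      calc B * Real.exp e ^ j * (S * r) * Pd d c₀ j * (C * Real.exp (e * j))
          ≤ B * Real.exp e ^ j * (S * r) * (C * Real.exp ((χ + e) * j)) *
              (C * Real.exp (e * j)) := by
            gcongr
        _ = B * C ^ 2 * (S * r) * Real.exp ((χ + 3 * e) * j) := by
            rw [e1]
            have : Real.exp ((χ + 3 * e) * j) =
                Real.exp (e * j) * Real.exp ((χ + e) * j) * Real.exp (e * j) := by
              rw [← Real.exp_add, ← Real.exp_add]; congr 1; ring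
            rw [this]; ring
        _ ≤ B * C ^ 2 * (S * r) * Real.exp ((χ + 3 * e) * n) := by
            have : (χ + 3 * e) * j ≤ (χ + 3 * e) * n := by gcongr
            gcongr
        _ ≤ 1 := hm
    have h6 : 0 < C * Real.exp (e * j) := by positivity
    by_contra hcon
    rw [not_le] at hcon
    have h7 := mul_lt_mul_of_pos_right hcon h6
    have h8 : ‖zz d c₀ j‖ * (C * Real.exp (e * j)) = C * Real.exp (e * j) * ‖zz d c₀ j‖ := by ring
    linarith
  -- bounds for Pd n
  have hPn := hCE.Pd_pos n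
  have hPup : Pd d c₀ n ≤ C * Real.exp ((1 - ε / 2) * X) := by
    refine (hC n).2.1.trans ?_
    have h3 : (χ + e) * n ≤ (1 - ε / 2) * X := by
      have : (χ + e) * n ≤ (χ + 3 * e) * n := by gcongr; linarith
      linarith
    gcongr
  have hPlow : (4 + 2 / κ) * r ^ (2 * ε - 1) ≤ Pd d c₀ n := by
    have h3 := (hC n).1
    rw [hrpow]
    have h5 : (1 - 2 * ε + ε / 10) * X ≤ (χ - e) * n + χ := by
      have h6 : (χ - e) * n = (1 - ε / 100) * (n * χ) := by rw [he]; ring
      have h7 : (1 - ε / 100) * ((1 - ε) * X - χ) ≤ (1 - ε / 100) * (n * χ) := by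
        have : 0 ≤ 1 - ε / 100 := by linarith
        gcongr
        linarith
      have h8 : (1 - 2 * ε + ε / 10) * X ≤ (1 - ε / 100) * (1 - ε) * X := by
        gcongr
        nlinarith
      have h9 : 0 ≤ ε / 100 * χ := by positivity
      rw [h6]
      linarith
    have h6 : Real.exp ((1 - 2 * ε + ε / 10) * X) ≤ C * Real.exp χ * Pd d c₀ n := by
      calc Real.exp ((1 - 2 * ε + ε / 10) * X) ≤ Real.exp ((χ - e) * n + χ) := by
            rw [Real.exp_le_exp]; exact h5
        _ = Real.exp ((χ - e) * n) * Real.exp χ := Real.exp_add _ _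
        _ ≤ (C * Pd d c₀ n) * Real.exp χ := by gcongr
        _ = _ := by ring
    have h7 : C * Real.exp χ * (4 + 2 / κ) * Real.exp (-X * (2 * ε - 1)) ≤
        Real.exp ((1 - 2 * ε + ε / 10) * X) := by
      calc C * Real.exp χ * (4 + 2 / κ) * Real.exp (-X * (2 * ε - 1))
          ≤ Real.exp (ε / 10 * X) * Real.exp (-X * (2 * ε - 1)) := by
            gcongr
            exact hK6.trans hXK
        _ = _ := by rw [← Real.exp_add]; congr 1; ring
    have h8 : 0 < C * Real.exp χ := by positivity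
    have h9 : C * Real.exp χ * ((4 + 2 / κ) * Real.exp (-X * (2 * ε - 1))) ≤
        C * Real.exp χ * Pd d c₀ n := by
      calc _ = C * Real.exp χ * (4 + 2 / κ) * Real.exp (-X * (2 * ε - 1)) := by ring
        _ ≤ _ := h7.trans h6
    exact le_of_mul_le_mul_left h9 h8
  have hrp0 : 0 < r ^ (2 * ε - 1) := Real.rpow_pos_of_pos hr0 _
  have hP2 : r ^ (2 * ε - 1) ≤ Pd d c₀ n / 4 := by
    have h3 : 0 < 2 / κ * r ^ (2 * ε - 1) := by positivity
    linarith
  have hPκ : r ^ (2 * ε - 1) ≤ κ / 2 * Pd d c₀ n := by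
    calc r ^ (2 * ε - 1) = κ / 2 * (2 / κ * r ^ (2 * ε - 1)) := by field_simp
      _ ≤ κ / 2 * ((4 + 2 / κ) * r ^ (2 * ε - 1)) := by gcongr; linarith
      _ ≤ _ := by gcongr
  have hCaP : Ca * (S * r) * Pd d c₀ n ≤ 1 := by
    calc Ca * (S * r) * Pd d c₀ n ≤ Ca * (S * r) * (C * Real.exp ((1 - ε / 2) * X)) := by gcongr
      _ = Ca * S * C * Real.exp (-(ε / 2 * X)) := by
          rw [hrexp]
          have : Real.exp (-(ε / 2 * X)) = Real.exp (-X) * Real.exp ((1 - ε / 2) * X) := by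
            rw [← Real.exp_add]; congr 1; ring
          rw [this]; ring
      _ ≤ 1 := hsmall _ _ hK2 (by linarith)
  have hSr : 0 < S * r := by positivity
  have hrS : r < S * r := by nlinarith
  have hconst : 16 * (Ca * (S * r) * Pd d c₀ n) / (S ^ 2 * r) = 16 * Ca / S * Pd d c₀ n := by
    field_simp
  refine ⟨n, ?_, ?_, ?_⟩
  · have h3 : Real.log (1 / r) = X := by rw [one_div, Real.log_inv, hX]
    rw [h3, abs_le]
    constructor <;> linarith
  · intro c x hc hx
    have hx' : x ∈ ball c (S * r) := by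
      rw [mem_ball, dist_eq_norm]
      linarith
    have hpass := hPC.pass c₀ hCE c (S * r) n hSr (by linarith) hpassn x hx'
    refine ⟨fun j hj => ⟨?_, ?_⟩, fun j hj => ?_, ?_⟩
    · have h3 := hpass j hj
      have h4 := hCE.bd j
      have h5 : (f d c)^[j] x = ((f d c)^[j] x - zz d c₀ j) + zz d c₀ j := by ring
      rw [h5]
      refine (norm_add_le _ _).trans ?_
      rcases hj.lt_or_eq with h6 | h6
      · have := h3.2.2.2 h6
        linarith
      · subst h6
        have := h3.1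
        linarith
    · have h3 := (hpass j hj).2.1
      have h5 : 1 / C₁ ≤ Pd d c₀ j := by
        rw [div_le_iff₀ hC₁p]
        have h6 := hCE.exp j
        have h7 : 1 ≤ lam ^ j := one_le_pow₀ hCE.lam1.le
        linarith
      refine (min_le_left _ _).trans ?_
      have h7 : 1 / (2 * C₁) = 1 / C₁ / 2 := by ring
      rw [h7]
      linarith
    · have h3 := (hpass j hj.le).2.2.2 hj
      have h5 : 3 / 4 * ‖zz d c₀ j‖ ≤ ‖(f d c)^[j] x‖ := by
        have h6 := norm_sub_norm_le (zz d c₀ j) ((f d c)^[j] x)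
        rw [norm_sub_rev] at h6
        linarith
      have h6 := (hC j).2.2
      have h7 : Real.exp (e * j) ≤ Real.exp (X * ε) := by
        apply Real.exp_le_exp.2
        have h8 : (j : ℝ) ≤ n := by exact_mod_cast hj.le
        have h9 : e * j ≤ e * n := by gcongr
        have h10 : e * n = ε / 100 * (n * χ) := by rw [he]; ring
        have h11 : ε / 100 * (n * χ) ≤ ε / 100 * ((1 - ε) * X) := by gcongr
        have h12 : ε / 100 * ((1 - ε) * X) ≤ X * ε := by
          have h13 : 0 ≤ ε * X := by positivity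
          have h14 : ε * (ε * X) ≥ 0 := by positivity
          nlinarith
        linarith
      have h8 : r ^ ε * Real.exp (X * ε) = 1 := by
        rw [hrpow, ← Real.exp_add]
        have : -X * ε + X * ε = 0 := by ring
        rw [this, Real.exp_zero]
      have hre : 0 < r ^ ε := Real.rpow_pos_of_pos hr0 _
      have h9 : r ^ ε ≤ C * ‖zz d c₀ j‖ := by
        have h10 : 1 ≤ C * Real.exp (X * ε) * ‖zz d c₀ j‖ := by
          refine h6.trans ?_
          refine mul_le_mul_of_nonneg_right ?_ (norm_nonneg _)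
          exact mul_le_mul_of_nonneg_left h7 hCp.le
        have h11 := mul_le_mul_of_nonneg_left h10 hre.le
        have h12 : r ^ ε * (C * Real.exp (X * ε) * ‖zz d c₀ j‖) =
            C * ‖zz d c₀ j‖ * (r ^ ε * Real.exp (X * ε)) := by ring
        rw [h12, h8, mul_one, mul_one] at h11
        exact h11
      have h11 : min (1 / (2 * C₁)) (3 / (4 * C)) * r ^ ε ≤ 3 / (4 * C) * r ^ ε :=
        mul_le_mul_of_nonneg_right (min_le_right _ _) hre.le
      have h12 : 3 / (4 * C) * r ^ ε ≤ 3 / (4 * C) * (C * ‖zz d c₀ j‖) :=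
        mul_le_mul_of_nonneg_left h9 (by positivity)
      have h13 : 3 / (4 * C) * (C * ‖zz d c₀ j‖) = 3 / 4 * ‖zz d c₀ j‖ := by
        field_simp
      linarith
    · have h3 := (hpass n le_rfl).2.1
      linarith
  · intro c c' hc hc'
    have hpass : ∀ b ∈ ball c₀ (S * r), ∀ j ≤ n,
        ‖(f d b)^[j] b - zz d c₀ j‖ ≤ Ca * (S * r) * Pd d c₀ j ∧
        Pd d c₀ j / 2 ≤ ‖deriv ((f d b)^[j]) b‖ := by
      intro b hb j hj
      rw [mem_ball, dist_eq_norm] at hb
      have h3 := hPC.pass c₀ hCE b (S * r) n hSr hb.le hpassn b (mem_ball_self hSr) j hj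
      exact ⟨h3.1, h3.2.1⟩
    have hne : ∀ b ∈ ball c₀ (S * r), ∀ j ≤ n, deriv ((f d b)^[j]) b ≠ 0 := by
      intro b hb j hj
      have h4 := hCE.Pd_pos j
      rw [← norm_pos_iff]
      linarith [(hpass b hb j hj).2]
    have h3 := two_pt (fun b => (f d b)^[n] b) c₀ (zz d c₀ n) r S (Ca * (S * r) * Pd d c₀ n) hr0
      hS8 (fun b hb => (der_sum d hd b n (hne b hb)).differentiableAt.differentiableWithinAt)
      (fun z hz => (hpass z hz n le_rfl).1) c c' hc hc'
    rw [hconst] at h3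
    have h4 := hg c₀ hCE c₀ (by rw [sub_self, norm_zero]; exact hεg.le) n hJn (fun j hj =>
      (hpass c₀ (mem_ball_self hSr) j hj).2)
    rw [P_succ_eq hd] at h4
    have h5 : ‖deriv (fun b => (f d b)^[n] b) c₀ * (c - c')‖ ≤
        ‖(f d c)^[n] c - (f d c')^[n] c'‖ + 16 * Ca / S * Pd d c₀ n * ‖c - c'‖ := by
      have e1 : deriv (fun b => (f d b)^[n] b) c₀ * (c - c') =
        ((f d c)^[n] c - (f d c')^[n] c') -
        ((f d c)^[n] c - (f d c')^[n] c' - deriv (fun b => (f d b)^[n] b) c₀ * (c - c')) := by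
          ring
      rw [e1]
      exact (norm_sub_le _ _).trans (by linarith)
    rw [norm_mul] at h5
    have h6 : κ * Pd d c₀ n * ‖c - c'‖ ≤ ‖deriv (fun b => (f d b)^[n] b) c₀‖ * ‖c - c'‖ := by
      gcongr
    have h7 : 16 * Ca / S * Pd d c₀ n * ‖c - c'‖ ≤ κ / 4 * Pd d c₀ n * ‖c - c'‖ := by gcongr
    have h8 : r ^ (2 * ε - 1) * ‖c - c'‖ ≤ κ / 2 * Pd d c₀ n * ‖c - c'‖ := by gcongr
    have h9 : 0 ≤ κ / 4 * Pd d c₀ n * ‖c - c'‖ := by positivity
    linarith

end Pool.Agent.N253.EC
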